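import Mathlib

/-!
# Counting integers in an interval with `⌊n / p⌋` divisible by `D`
-/

set_option autoImplicit false

namespace Pool.GDS

open Finset

lemma cls {x N r : ℕ} (hr : 0 < r) (v : ℕ) :
    |(((Ioc x (x + N)).filter (fun n => n ≡ v [MOD r])).card : ℝ) - N / r| ≤ 1 := by
  have h := Nat.Ioc_filter_modEq_card x (x + N) hr v
  have hr' : (0 : ℝ) < r := by exact_mod_cast hr
  have hr'' : (0 : ℚ) < r := by exact_mod_cast hr
  have h1 : ⌊(((x + N : ℕ) : ℚ) - v) / r⌋ - ⌊((x : ℚ) - v) / r⌋ ≥ 0 := by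
    have : ((x : ℚ) - v) / r ≤ (((x + N : ℕ) : ℚ) - v) / r := by
      apply div_le_div_of_nonneg_right _ hr''.le
      push_cast
      linarith [(Nat.cast_nonneg N : (0 : ℚ) ≤ N)]
    have := Int.floor_le_floor this
    omega
  rw [max_eq_left h1] at h
  have h2 := Int.floor_le ((((x + N : ℕ) : ℚ) - v) / r)
  have h3 := Int.lt_floor_add_one ((((x + N : ℕ) : ℚ) - v) / r)
  have h4 := Int.floor_le (((x : ℚ) - v) / r)
  have h5 := Int.lt_floor_add_one (((x : ℚ) - v) / r)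
  have h6 : ((((x + N : ℕ) : ℚ) - v) / r) - (((x : ℚ) - v) / r) = (N : ℚ) / r := by
    push_cast
    ring
  set c := ((Ioc x (x + N)).filter (fun n => n ≡ v [MOD r])).card with hc
  have h7 : (c : ℚ) = (⌊(((x + N : ℕ) : ℚ) - v) / r⌋ : ℚ) - (⌊((x : ℚ) - v) / r⌋ : ℚ) := by
    exact_mod_cast h
  have h8 : |(c : ℚ) - (N : ℚ) / r| ≤ 1 := by
    rw [abs_le]
    constructor <;> linarith
  have h9 := (Rat.cast_le (K := ℝ)).mpr h8
  push_cast at h9
  exact h9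

/-- the indicator of the `n` with `p ∤ n` and `D ∣ ⌊n / p⌋` -/
noncomputable def ind (p D n : ℕ) : ℝ := if 1 ≤ n % (p * D) ∧ n % (p * D) < p then 1 else 0

lemma ind_iff {p D n : ℕ} (hp : 0 < p) :
    (1 ≤ n % (p * D) ∧ n % (p * D) < p) ↔ (¬ p ∣ n ∧ D ∣ n / p) := by
  rw [Nat.mod_mul]
  have h1 : n % p < p := Nat.mod_lt _ hp
  constructor
  · rintro ⟨h2, h3⟩
    have h4 : n / p % D = 0 := by
      by_contra h5
      have : p * 1 ≤ p * (n / p % D) := Nat.mul_le_mul_left _ (Nat.pos_of_ne_zero h5)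
      omega
    rw [h4, mul_zero, add_zero] at h2
    exact ⟨fun h5 => by rw [Nat.mod_eq_zero_of_dvd h5] at h2; omega, Nat.dvd_of_mod_eq_zero h4⟩
  · rintro ⟨h2, h3⟩
    rw [Nat.mod_eq_zero_of_dvd h3, mul_zero, add_zero]
    refine ⟨?_, h1⟩
    rcases Nat.eq_zero_or_pos (n % p) with h4 | h4
    · exact absurd (Nat.dvd_of_mod_eq_zero h4) h2
    · exact h4

lemma ind_eq {p D n : ℕ} (hp : 0 < p) (hD : 0 < D) :
    ind p D n = ∑ u ∈ Ico 1 p, if n ≡ u [MOD p * D] then 1 else 0 := by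
  unfold ind
  have hpD : p ≤ p * D := Nat.le_mul_of_pos_right _ hD
  have h1 : ∀ u ∈ Ico 1 p, (if n ≡ u [MOD p * D] then (1 : ℝ) else 0) =
      if n % (p * D) = u then 1 else 0 := by
    intro u hu
    rw [mem_Ico] at hu
    have : n ≡ u [MOD p * D] ↔ n % (p * D) = u := by
      rw [Nat.ModEq, Nat.mod_eq_of_lt (show u < p * D by omega)]
    simp only [this]
  rw [sum_congr rfl h1, sum_ite_eq]
  simp only [mem_Ico]

lemma ind_nonneg (p D n : ℕ) : 0 ≤ ind p D n := by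
  unfold ind
  split_ifs <;> norm_num

/-- first moment -/
lemma sum_ind {x N p D : ℕ} (hp : 0 < p) (hD : 0 < D) :
    |∑ n ∈ Ioc x (x + N), ind p D n - N * (((p : ℝ) - 1) / (p * D))| ≤ p := by
  simp_rw [ind_eq hp hD]
  rw [sum_comm]
  have h1 : ∀ u ∈ Ico 1 p, (∑ n ∈ Ioc x (x + N), if n ≡ u [MOD p * D] then (1 : ℝ) else 0) =
      (((Ioc x (x + N)).filter (fun n => n ≡ u [MOD p * D])).card : ℝ) := by
    intro u _
    rw [card_filter]
    push_cast
    rfl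
  rw [sum_congr rfl h1]
  have h2 : (N : ℝ) * (((p : ℝ) - 1) / (p * D)) = ∑ _u ∈ Ico 1 p, (N : ℝ) / ((p * D : ℕ) : ℝ) := by
    rw [sum_const, Nat.card_Ico, nsmul_eq_mul]
    push_cast [Nat.cast_sub hp]
    ring
  rw [h2, ← sum_sub_distrib]
  refine (abs_sum_le_sum_abs _ _).trans ?_
  refine (sum_le_sum fun u _ => cls (Nat.mul_pos hp hD) u).trans ?_
  rw [sum_const, Nat.card_Ico, nsmul_eq_mul, mul_one]
  exact_mod_cast Nat.sub_le _ _

lemma pair_cls {x N m m' u v : ℕ} (hm : 0 < m) (hm' : 0 < m') (h : u ≡ v [MOD Nat.gcd m m']) :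
    |∑ n ∈ Ioc x (x + N), (if n ≡ u [MOD m] then (1 : ℝ) else 0) * (if n ≡ v [MOD m'] then 1 else 0) -
      N / (Nat.lcm m m' : ℕ)| ≤ 1 := by
  obtain ⟨k, hk1, hk2⟩ := Nat.chineseRemainder' h
  have hL : 0 < Nat.lcm m m' := Nat.lcm_pos hm hm'
  have h1 : ∀ n, (if n ≡ u [MOD m] then (1 : ℝ) else 0) * (if n ≡ v [MOD m'] then 1 else 0) =
      if n ≡ k [MOD Nat.lcm m m'] then 1 else 0 := by
    intro n
    have h2 : (n ≡ k [MOD Nat.lcm m m']) ↔ (n ≡ u [MOD m] ∧ n ≡ v [MOD m']) := by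
      constructor
      · intro h3
        exact ⟨(h3.of_dvd (Nat.dvd_lcm_left m m')).trans hk1, (h3.of_dvd (Nat.dvd_lcm_right m m')).trans hk2⟩
      · rintro ⟨h3, h4⟩
        have h5 := h3.trans hk1.symm
        have h6 := h4.trans hk2.symm
        rw [Nat.modEq_iff_dvd] at h5 h6 ⊢
        rw [Int.natCast_dvd] at h5 h6 ⊢
        exact Nat.lcm_dvd h5 h6
    by_cases h3 : n ≡ u [MOD m] <;> by_cases h4 : n ≡ v [MOD m'] <;> simp [h2, h3, h4]
  simp_rw [h1]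
  have h3 := cls (x := x) (N := N) hL k
  rwa [card_filter, Nat.cast_sum, show (∑ i ∈ Ioc x (x + N), (((if i ≡ k [MOD Nat.lcm m m'] then 1 else 0 : ℕ)) : ℝ)) =
    ∑ n ∈ Ioc x (x + N), (if n ≡ k [MOD Nat.lcm m m'] then (1 : ℝ) else 0) from
    sum_congr rfl fun i _ => by split_ifs <;> simp] at h3

lemma pair_ncls {x N m m' u v : ℕ} (h : ¬ u ≡ v [MOD Nat.gcd m m']) :
    ∑ n ∈ Ioc x (x + N), (if n ≡ u [MOD m] then (1 : ℝ) else 0) * (if n ≡ v [MOD m'] then 1 else 0) = 0 := by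
  refine sum_eq_zero fun n _ => ?_
  by_cases h3 : n ≡ u [MOD m]
  · by_cases h4 : n ≡ v [MOD m']
    · exact absurd ((h3.of_dvd (Nat.gcd_dvd_left m m')).symm.trans (h4.of_dvd (Nat.gcd_dvd_right m m'))) h
    · simp [h4]
  · simp [h3]

/-- second moment -/
lemma sum_ind_mul {x N p D p' D' : ℕ} (hp : 0 < p) (hD : 0 < D) (hp' : 0 < p') (hD' : 0 < D') :
    |∑ n ∈ Ioc x (x + N), ind p D n * ind p' D' n -
      N * ((((p : ℝ) - 1) / (p * D)) * (((p' : ℝ) - 1) / (p' * D')))| ≤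
      N * (p / (Nat.lcm (p * D) (p' * D') : ℕ)) + p * p' := by
  set g := Nat.gcd (p * D) (p' * D') with hg
  set L := Nat.lcm (p * D) (p' * D') with hL
  have hm : 0 < p * D := Nat.mul_pos hp hD
  have hm' : 0 < p' * D' := Nat.mul_pos hp' hD'
  have hgpos : 0 < g := Nat.gcd_pos_of_pos_left _ hm
  have hLpos : 0 < L := Nat.lcm_pos hm hm'
  have hgR : (0 : ℝ) < g := by exact_mod_cast hgpos
  have hLR : (0 : ℝ) < L := by exact_mod_cast hLpos
  have hgL : (g : ℝ) * L = (p * D) * (p' * D') := by exact_mod_cast Nat.gcd_mul_lcm (p * D) (p' * D')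
  have hpR : (1 : ℝ) ≤ p := by exact_mod_cast hp
  have hpR' : (1 : ℝ) ≤ p' := by exact_mod_cast hp'
  -- the sum over pairs
  have h1 : ∑ n ∈ Ioc x (x + N), ind p D n * ind p' D' n =
      ∑ u ∈ Ico 1 p, ∑ v ∈ Ico 1 p', ∑ n ∈ Ioc x (x + N),
        (if n ≡ u [MOD p * D] then (1 : ℝ) else 0) * (if n ≡ v [MOD p' * D'] then 1 else 0) := by
    simp_rw [ind_eq hp hD, ind_eq hp' hD', sum_mul_sum]
    rw [sum_comm]
    exact sum_congr rfl fun u _ => sum_comm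
  rw [h1]
  have hcnt : ∀ u : ℕ, |(((Ico 1 p').filter (fun v => u ≡ v [MOD g])).card : ℝ) - ((p' : ℝ) - 1) / g| ≤ 1 := by
    intro u
    have h2 := cls (x := 0) (N := p' - 1) hgpos u
    have h3 : (Ico 1 p').filter (fun v => u ≡ v [MOD g]) = (Ioc 0 (0 + (p' - 1))).filter (fun n => n ≡ u [MOD g]) := by
      ext v
      simp only [mem_filter, mem_Ico, mem_Ioc]
      constructor
      · rintro ⟨⟨h4, h5⟩, h6⟩
        exact ⟨⟨by omega, by omega⟩, h6.symm⟩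
      · rintro ⟨⟨h4, h5⟩, h6⟩
        exact ⟨⟨by omega, by omega⟩, h6.symm⟩
    rw [h3]
    push_cast [Nat.cast_sub hp'] at h2
    exact h2
  have hin : ∀ u ∈ Ico 1 p, |∑ v ∈ Ico 1 p', ∑ n ∈ Ioc x (x + N),
        (if n ≡ u [MOD p * D] then (1 : ℝ) else 0) * (if n ≡ v [MOD p' * D'] then 1 else 0) -
        (((p' : ℝ) - 1) / g) * (N / L)| ≤ p' + N / L := by
    intro u _
    have h2 : ∑ v ∈ Ico 1 p', ∑ n ∈ Ioc x (x + N),
        (if n ≡ u [MOD p * D] then (1 : ℝ) else 0) * (if n ≡ v [MOD p' * D'] then 1 else 0) =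
        ∑ v ∈ (Ico 1 p').filter (fun v => u ≡ v [MOD g]), ∑ n ∈ Ioc x (x + N),
        (if n ≡ u [MOD p * D] then (1 : ℝ) else 0) * (if n ≡ v [MOD p' * D'] then 1 else 0) := by
      rw [sum_filter]
      refine sum_congr rfl fun v _ => ?_
      by_cases h3 : u ≡ v [MOD g]
      · rw [if_pos h3]
      · rw [if_neg h3]
        exact pair_ncls h3
    rw [h2]
    have h3 : |∑ v ∈ (Ico 1 p').filter (fun v => u ≡ v [MOD g]), ∑ n ∈ Ioc x (x + N),
        (if n ≡ u [MOD p * D] then (1 : ℝ) else 0) * (if n ≡ v [MOD p' * D'] then 1 else 0) -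
        (((Ico 1 p').filter (fun v => u ≡ v [MOD g])).card : ℝ) * (N / L)| ≤ p' := by
      have h4 : (((Ico 1 p').filter (fun v => u ≡ v [MOD g])).card : ℝ) * ((N : ℝ) / L) =
          ∑ _v ∈ (Ico 1 p').filter (fun v => u ≡ v [MOD g]), (N : ℝ) / L := by
        rw [sum_const, nsmul_eq_mul]
      rw [h4, ← sum_sub_distrib]
      refine (abs_sum_le_sum_abs _ _).trans ((sum_le_sum fun v hv => pair_cls hm hm' (mem_filter.mp hv).2).trans ?_)
      rw [sum_const, nsmul_eq_mul, mul_one]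
      have h5 : ((Ico 1 p').filter (fun v => u ≡ v [MOD g])).card ≤ p' :=
        (card_filter_le _ _).trans (by rw [Nat.card_Ico]; exact Nat.sub_le _ _)
      exact_mod_cast h5
    have h4 := hcnt u
    have h5 : |(((Ico 1 p').filter (fun v => u ≡ v [MOD g])).card : ℝ) * ((N : ℝ) / L) -
        (((p' : ℝ) - 1) / g) * (N / L)| ≤ N / L := by
      rw [← sub_mul, abs_mul, abs_of_nonneg (by positivity : (0 : ℝ) ≤ N / L)]
      calc _ ≤ 1 * ((N : ℝ) / L) := mul_le_mul_of_nonneg_right h4 (by positivity)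
        _ = _ := one_mul _
    calc _ ≤ _ := abs_sub_le _ ((((Ico 1 p').filter (fun v => u ≡ v [MOD g])).card : ℝ) * (N / L)) _
      _ ≤ _ := add_le_add h3 h5
  have hmain : (N : ℝ) * ((((p : ℝ) - 1) / (p * D)) * (((p' : ℝ) - 1) / (p' * D'))) =
      ∑ _u ∈ Ico 1 p, (((p' : ℝ) - 1) / g) * ((N : ℝ) / L) := by
    rw [sum_const, Nat.card_Ico, nsmul_eq_mul]
    push_cast [Nat.cast_sub hp]
    rw [div_mul_div_comm, ← hgL]
    field_simp
  rw [hmain, ← sum_sub_distrib]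
  refine (abs_sum_le_sum_abs _ _).trans ((sum_le_sum hin).trans ?_)
  rw [sum_const, Nat.card_Ico, nsmul_eq_mul]
  push_cast [Nat.cast_sub hp]
  have h9 : (0 : ℝ) ≤ N / L := by positivity
  have h10 : (N : ℝ) * (p / L) = p * (N / L) := by ring
  rw [h10]
  nlinarith

end Pool.GDS
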