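import Mathlib

/-!
# Greedy decreasing sequences: the criterion

If every term of the sequence of `n` is prime, then for every prime `p` with `p ∤ n`, `2 p ≤ n`, the number
`⌊n / p⌋` has a prime factor `< p`.
-/

set_option autoImplicit false

namespace Pool.GDS

open Finset

/-- all terms of the greedy sequence of `n` are prime -/
def AllPrime (n : ℕ) : Prop :=
  ∀ m : ℕ, 1 < m → m < n → (∀ q : ℕ, q.Prime → q ∣ m → n - m < q) → m.Prime

lemma AllPrime.exists_factor {n p : ℕ} (h : AllPrime n) (hp : p.Prime) (hpn : ¬ p ∣ n) (h2 : 2 * p ≤ n) :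
    ∃ q : ℕ, q.Prime ∧ q < p ∧ q ∣ n / p := by
  by_contra hcon
  push Not at hcon
  have hl : 2 ≤ n / p := (Nat.le_div_iff_mul_le hp.pos).mpr h2
  have hmod : n % p + p * (n / p) = n := Nat.mod_add_div n p
  have hr : n % p ≠ 0 := fun h0 => hpn (Nat.dvd_of_mod_eq_zero h0)
  have hr2 : n % p < p := Nat.mod_lt _ hp.pos
  have h2p := hp.two_le
  have hm1 : 1 < p * (n / p) := by nlinarith
  have hm2 : p * (n / p) < n := by omega
  have hm3 : n - p * (n / p) = n % p := by omega
  have hprime := h (p * (n / p)) hm1 hm2 (by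
    intro q hq hqm
    rw [hm3]
    rcases (Nat.Prime.dvd_mul hq).mp hqm with h1 | h1
    · have := (Nat.prime_dvd_prime_iff_eq hq hp).mp h1
      omega
    · have : p ≤ q := by
        by_contra hlt
        exact hcon q hq (not_le.mp hlt) h1
      omega)
  exact Nat.not_prime_mul (by omega) (by omega) hprime

end Pool.GDS
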