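import Mathlib

/-!
# A variance computation
-/

set_option autoImplicit false

namespace Pool.GDS

open Finset

lemma variance {ι : Type*} (s : Finset ι) (I : Finset ℕ) (c : ι → ℝ) (a : ι → ℕ → ℝ) (κ e : ι → ℝ)
    (E : ι → ι → ℝ) (N : ℝ) (hN : (I.card : ℝ) = N) (hκ : ∀ i ∈ s, 0 ≤ κ i)
    (h1 : ∀ i ∈ s, |∑ n ∈ I, a i n - N * κ i| ≤ e i)
    (h2 : ∀ i ∈ s, ∀ j ∈ s, |∑ n ∈ I, a i n * a j n - N * (κ i * κ j)| ≤ E i j) :
    ∑ n ∈ I, (∑ i ∈ s, c i * a i n - ∑ i ∈ s, c i * κ i) ^ 2 ≤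
      ∑ i ∈ s, ∑ j ∈ s, |c i| * |c j| * (E i j + κ i * e j + κ j * e i) := by
  have h3 : ∀ n ∈ I, (∑ i ∈ s, c i * a i n - ∑ i ∈ s, c i * κ i) ^ 2 =
      ∑ i ∈ s, ∑ j ∈ s, c i * c j * (a i n * a j n - κ j * a i n - κ i * a j n + κ i * κ j) := by
    intro n _
    rw [← sum_sub_distrib, sq, sum_mul_sum]
    exact sum_congr rfl fun i _ => sum_congr rfl fun j _ => by ring
  rw [sum_congr rfl h3, sum_comm]
  refine sum_le_sum fun i hi => ?_
  rw [sum_comm]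
  refine sum_le_sum fun j hj => ?_
  have h4 : ∑ n ∈ I, c i * c j * (a i n * a j n - κ j * a i n - κ i * a j n + κ i * κ j) =
      c i * c j * ((∑ n ∈ I, a i n * a j n - N * (κ i * κ j)) - κ j * (∑ n ∈ I, a i n - N * κ i) -
        κ i * (∑ n ∈ I, a j n - N * κ j)) := by
    rw [← mul_sum, sum_add_distrib, sum_sub_distrib, sum_sub_distrib, sum_const, nsmul_eq_mul, hN, ← mul_sum,
      ← mul_sum]
    ring
  rw [h4]
  refine (le_abs_self _).trans ?_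
  rw [abs_mul, abs_mul]
  refine mul_le_mul_of_nonneg_left ?_ (by positivity)
  have h5 := h2 i hi j hj
  have h6 := h1 i hi
  have h7 := h1 j hj
  have h8 : |κ j * (∑ n ∈ I, a i n - N * κ i)| ≤ κ j * e i := by
    rw [abs_mul, abs_of_nonneg (hκ j hj)]
    exact mul_le_mul_of_nonneg_left h6 (hκ j hj)
  have h9 : |κ i * (∑ n ∈ I, a j n - N * κ j)| ≤ κ i * e j := by
    rw [abs_mul, abs_of_nonneg (hκ i hi)]
    exact mul_le_mul_of_nonneg_left h7 (hκ i hi)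
  rw [abs_le] at h5 h8 h9 ⊢
  constructor <;> linarith [h5.1, h5.2, h8.1, h8.2, h9.1, h9.2]

end Pool.GDS
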