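import Pool.Agent.Helper53.GDS.TBound
import Pool.Agent.Helper53.GDS.Var

/-!
# The second moment
-/

set_option autoImplicit false

namespace Pool.GDS

open Finset Pool.Agent.Helper29.QT

/-- the primes in `(z / 4, z]` -/
def PR (z : ℕ) : Finset ℕ := (prs z).filter (fun p => z / 4 < p)

lemma mem_PR {z p : ℕ} : p ∈ PR z ↔ (p.Prime ∧ p ≤ z) ∧ z / 4 < p := by
  unfold PR
  rw [mem_filter, mem_prs]

lemma card_PR (z : ℕ) : (PR z).card ≤ z := by
  calc (PR z).card ≤ (Icc 1 z).card := card_le_card fun p hp => by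
        rw [mem_PR] at hp
        rw [mem_Icc]
        exact ⟨hp.1.1.one_lt.le, hp.1.2⟩
    _ = z := by simp

lemma card_TT {R z : ℕ} (hz : 1 ≤ z) : (TT R z).card ≤ R ^ 2 * z := by
  have h1 : (sqf R).card ≤ R := by
    calc (sqf R).card ≤ (Icc 1 R).card := card_le_card (filter_subset _ _)
      _ = R := by simp
  have h2 : (insert 1 (prs z)).card ≤ z := by
    calc (insert 1 (prs z)).card ≤ (Icc 1 z).card := card_le_card fun p hp => by
          rw [mem_insert, mem_prs] at hp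
          rw [mem_Icc]
          rcases hp with rfl | hp
          · exact ⟨le_refl _, hz⟩
          · exact ⟨hp.1.one_lt.le, hp.2⟩
      _ = z := by simp
  unfold TT
  rw [card_product, card_product]
  calc _ ≤ R * (R * z) := Nat.mul_le_mul h1 (Nat.mul_le_mul h1 h2)
    _ = R ^ 2 * z := by ring

lemma double_sum {R z : ℕ} (hz : 1 ≤ z) (hzR : z ≤ R) :
    ∑ i ∈ PR z ×ˢ TT R z, ∑ j ∈ PR z ×ˢ TT R z,
      ((i.1 : ℝ) / (Nat.lcm (i.1 * DD i.2) (j.1 * DD j.2) : ℕ)) ≤ 16901 * z * PP R := by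
  have hPP := one_le_PP R
  have hz0 : (0 : ℝ) < z := by exact_mod_cast hz
  have h1 : ∀ p ∈ PR z, ∀ p' ∈ PR z, ∑ t ∈ TT R z, ∑ t' ∈ TT R z,
      ((p : ℝ) / (Nat.lcm (p * DD t) (p' * DD t') : ℕ)) ≤
      (if p = p' then PP R else 0) + 4 / z * (65 ^ 2 * PP R) := by
    intro p hp p' hp'
    rw [mem_PR] at hp hp'
    have hp0 : (0 : ℝ) < p := by exact_mod_cast hp.1.1.pos
    have hp0' : (0 : ℝ) < p' := by exact_mod_cast hp'.1.1.pos
    by_cases hpp : p = p'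
    · subst hpp
      rw [if_pos rfl]
      have h2 : ∑ t ∈ TT R z, ∑ t' ∈ TT R z, ((p : ℝ) / (Nat.lcm (p * DD t) (p * DD t') : ℕ)) =
          ∑ x ∈ TT R z ×ˢ TT R z, 1 / (LL x : ℝ) := by
        rw [sum_product]
        refine sum_congr rfl fun t _ => sum_congr rfl fun t' _ => ?_
        rw [Nat.lcm_mul_left]
        unfold LL
        push_cast
        field_simp
      rw [h2]
      have h3 : (0 : ℝ) ≤ 4 / z * (65 ^ 2 * PP R) := by positivity
      linarith [pair_sum_one (z := z) hzR]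
    · rw [if_neg hpp, zero_add]
      have h2 : ∀ x ∈ TT R z ×ˢ TT R z, (p : ℝ) / (Nat.lcm (p * DD x.1) (p' * DD x.2) : ℕ) ≤
          1 / p' * ((Nat.gcd p (LL x) : ℝ) * Nat.gcd p' (LL x) / (LL x : ℝ)) := by
        intro x hx
        rw [mem_product] at hx
        exact term_le hp.1.1 hp'.1.1 hpp (DD_pos hzR hx.1) (DD_pos hzR hx.2)
      rw [← sum_product' (f := fun t t' => (p : ℝ) / (Nat.lcm (p * DD t) (p' * DD t') : ℕ))]
      refine (sum_le_sum h2).trans ?_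
      rw [← mul_sum]
      refine mul_le_mul ?_ (pair_sum_two hzR hp.1.1 hp'.1.1 hpp) (sum_nonneg fun x _ => by positivity) (by positivity)
      rw [div_le_div_iff₀ hp0' hz0, one_mul]
      have h3 : z < p' * 4 := (Nat.div_lt_iff_lt_mul (by norm_num)).mp hp'.2
      have h4 : (z : ℝ) < p' * 4 := by exact_mod_cast h3
      linarith
  have h2 : ∑ i ∈ PR z ×ˢ TT R z, ∑ j ∈ PR z ×ˢ TT R z,
      ((i.1 : ℝ) / (Nat.lcm (i.1 * DD i.2) (j.1 * DD j.2) : ℕ)) =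
      ∑ p ∈ PR z, ∑ p' ∈ PR z, ∑ t ∈ TT R z, ∑ t' ∈ TT R z,
      ((p : ℝ) / (Nat.lcm (p * DD t) (p' * DD t') : ℕ)) := by
    rw [sum_product]
    refine sum_congr rfl fun p _ => ?_
    rw [sum_congr rfl fun t _ => sum_product _ _ _, sum_comm]
  rw [h2]
  refine (sum_le_sum fun p hp => sum_le_sum fun p' hp' => h1 p hp p' hp').trans ?_
  have h3 : ∀ p ∈ PR z, ∑ p' ∈ PR z, ((if p = p' then PP R else 0) + 4 / z * (65 ^ 2 * PP R)) =
      PP R + (PR z).card * (4 / z * (65 ^ 2 * PP R)) := by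
    intro p hp
    rw [sum_add_distrib, sum_ite_eq, if_pos hp, sum_const, nsmul_eq_mul]
  rw [sum_congr rfl h3, sum_const, nsmul_eq_mul]
  have h4 : ((PR z).card : ℝ) ≤ z := by exact_mod_cast card_PR z
  have h5 : (0 : ℝ) ≤ (PR z).card := Nat.cast_nonneg _
  calc ((PR z).card : ℝ) * (PP R + (PR z).card * (4 / z * (65 ^ 2 * PP R)))
      ≤ z * (PP R + z * (4 / z * (65 ^ 2 * PP R))) := by
        refine mul_le_mul h4 ?_ (by positivity) hz0.le
        have := mul_le_mul_of_nonneg_right h4 (by positivity : (0 : ℝ) ≤ 4 / z * (65 ^ 2 * PP R))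
        linarith
    _ = 16901 * z * PP R := by
        field_simp
        ring

/-- the exceptional numbers of an interval -/
noncomputable def EX (x N z : ℕ) : Finset ℕ := by
  classical
  exact (Ioc x (x + N)).filter (fun n => 2 * z ≤ n ∧ AllPrime n)

lemma mem_EX {x N z n : ℕ} : n ∈ EX x N z ↔ n ∈ Ioc x (x + N) ∧ 2 * z ≤ n ∧ AllPrime n := by
  classical
  unfold EX
  rw [mem_filter]

/-- the second moment inequality -/
lemma main_ineq {R z : ℕ} (x N : ℕ) (hz : 1 ≤ z) (hzR : z ≤ R) (hmu : 0 ≤ mu R z) :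
    ((EX x N z).card : ℝ) * (mu R z * ((PR z).card / 2)) ^ 2 ≤
      N * (16901 * z * PP R) + 3 * z ^ 2 * (z * (R ^ 2 * z)) ^ 2 := by
  set s := PR z ×ˢ TT R z with hs
  set I := Ioc x (x + N) with hI
  set c : ℕ × (ℕ × ℕ × ℕ) → ℝ := fun i => cc R i.2 with hc
  set a : ℕ × (ℕ × ℕ × ℕ) → ℕ → ℝ := fun i n => ind i.1 (DD i.2) n with ha
  set κ : ℕ × (ℕ × ℕ × ℕ) → ℝ := fun i => ((i.1 : ℝ) - 1) / (i.1 * DD i.2) with hκ
  have hR : 1 ≤ R := hz.trans hzR
  have hs1 : ∀ i ∈ s, (i.1.Prime ∧ i.1 ≤ z) ∧ 0 < DD i.2 := by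
    intro i hi
    rw [hs, mem_product, mem_PR] at hi
    exact ⟨hi.1.1, DD_pos hzR hi.2⟩
  have hκ0 : ∀ i ∈ s, 0 ≤ κ i ∧ κ i ≤ 1 := by
    intro i hi
    obtain ⟨⟨h1, h2⟩, h3⟩ := hs1 i hi
    have h4 : (1 : ℝ) ≤ i.1 := by exact_mod_cast h1.one_lt.le
    have h5 : (1 : ℝ) ≤ DD i.2 := by exact_mod_cast h3
    simp only [hκ]
    refine ⟨div_nonneg (by linarith) (by positivity), ?_⟩
    rw [div_le_one (by positivity)]
    nlinarith
  have hvar := variance s I c a κ (fun i => (i.1 : ℝ))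
    (fun i j => N * (i.1 / (Nat.lcm (i.1 * DD i.2) (j.1 * DD j.2) : ℕ)) + i.1 * j.1) N
    (by rw [hI]; simp) (fun i hi => (hκ0 i hi).1)
    (fun i hi => sum_ind (hs1 i hi).1.1.pos (hs1 i hi).2)
    (fun i hi j hj => sum_ind_mul (hs1 i hi).1.1.pos (hs1 i hi).2 (hs1 j hj).1.1.pos (hs1 j hj).2)
  -- the right-hand side
  have hrhs : ∑ i ∈ s, ∑ j ∈ s, |c i| * |c j| *
      (N * ((i.1 : ℝ) / (Nat.lcm (i.1 * DD i.2) (j.1 * DD j.2) : ℕ)) + i.1 * j.1 + κ i * j.1 + κ j * i.1) ≤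
      N * (16901 * z * PP R) + 3 * z ^ 2 * (z * (R ^ 2 * z)) ^ 2 := by
    have h1 : ∀ i ∈ s, ∀ j ∈ s, |c i| * |c j| *
        (N * ((i.1 : ℝ) / (Nat.lcm (i.1 * DD i.2) (j.1 * DD j.2) : ℕ)) + i.1 * j.1 + κ i * j.1 + κ j * i.1) ≤
        N * ((i.1 : ℝ) / (Nat.lcm (i.1 * DD i.2) (j.1 * DD j.2) : ℕ)) + 3 * z ^ 2 := by
      intro i hi j hj
      obtain ⟨⟨h2, h3⟩, _⟩ := hs1 i hi
      obtain ⟨⟨h4, h5⟩, _⟩ := hs1 j hj
      obtain ⟨h6, h7⟩ := hκ0 i hi
      obtain ⟨h8, h9⟩ := hκ0 j hj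
      have h10 : (i.1 : ℝ) ≤ z := by exact_mod_cast h3
      have h11 : (j.1 : ℝ) ≤ z := by exact_mod_cast h5
      have h12 : (0 : ℝ) ≤ i.1 := Nat.cast_nonneg _
      have h13 : (0 : ℝ) ≤ j.1 := Nat.cast_nonneg _
      have h14 : (1 : ℝ) ≤ z := by exact_mod_cast hz
      have h15 : (i.1 : ℝ) * j.1 ≤ z * z := mul_le_mul h10 h11 h13 (by linarith)
      have h16 : κ i * j.1 ≤ 1 * z := mul_le_mul h7 h11 h13 (by linarith)
      have h17 : κ j * i.1 ≤ 1 * z := mul_le_mul h9 h10 h12 (by linarith)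
      have h18 : |c i| * |c j| ≤ 1 := by
        calc _ ≤ (1 : ℝ) * 1 := mul_le_mul (abs_cc_le hR _) (abs_cc_le hR _) (abs_nonneg _) zero_le_one
          _ = 1 := one_mul 1
      have h19 : (0 : ℝ) ≤ N * ((i.1 : ℝ) / (Nat.lcm (i.1 * DD i.2) (j.1 * DD j.2) : ℕ)) + i.1 * j.1 +
          κ i * j.1 + κ j * i.1 := by positivity
      have h20 := mul_le_mul_of_nonneg_right h18 h19
      nlinarith
    refine (sum_le_sum fun i hi => sum_le_sum fun j hj => h1 i hi j hj).trans ?_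
    simp_rw [sum_add_distrib, ← mul_sum]
    refine add_le_add ?_ ?_
    · refine mul_le_mul_of_nonneg_left (double_sum hz hzR) (Nat.cast_nonneg N)
    · rw [sum_const, sum_const, nsmul_eq_mul, nsmul_eq_mul]
      have h2 : s.card ≤ z * (R ^ 2 * z) := by
        rw [hs, card_product]
        exact Nat.mul_le_mul (card_PR z) (card_TT hz)
      have h3 : (s.card : ℝ) ≤ z * (R ^ 2 * z) := by exact_mod_cast h2
      have h4 : (0 : ℝ) ≤ s.card := Nat.cast_nonneg _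
      have h5 : (s.card : ℝ) * s.card ≤ (z * (R ^ 2 * z)) * (z * (R ^ 2 * z)) := mul_le_mul h3 h3 h4 (by positivity)
      have h6 := mul_le_mul_of_nonneg_left h5 (by positivity : (0 : ℝ) ≤ 3 * (z : ℝ) ^ 2)
      calc (3 : ℝ) * ((s.card : ℝ) * (s.card * (z : ℝ) ^ 2)) = 3 * (z : ℝ) ^ 2 * ((s.card : ℝ) * s.card) := by ring
        _ ≤ 3 * (z : ℝ) ^ 2 * (((z : ℝ) * ((R : ℝ) ^ 2 * z)) * ((z : ℝ) * ((R : ℝ) ^ 2 * z))) := h6
        _ = _ := by ring
  -- the mean value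
  have hM : mu R z * ((PR z).card / 2) ≤ ∑ i ∈ s, c i * κ i := by
    have h1 : ∑ i ∈ s, c i * κ i = ∑ p ∈ PR z, ((p : ℝ) - 1) / p * mu R z := by
      rw [hs, sum_product]
      refine sum_congr rfl fun p _ => ?_
      rw [← sum_cc_div, mul_sum]
      refine sum_congr rfl fun t _ => ?_
      simp only [hc, hκ]
      rw [mul_one_div, div_mul_div_comm, mul_div_assoc', mul_comm]
    rw [h1]
    have h2 : mu R z * ((PR z).card / 2) = ∑ _p ∈ PR z, 1 / 2 * mu R z := by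
      rw [sum_const, nsmul_eq_mul]
      ring
    rw [h2]
    refine sum_le_sum fun p hp => mul_le_mul_of_nonneg_right ?_ hmu
    have h3 : (2 : ℝ) ≤ p := by exact_mod_cast (mem_PR.mp hp).1.1.two_le
    rw [div_le_div_iff₀ (by norm_num) (by linarith)]
    linarith
  have hM0 : 0 ≤ mu R z * ((PR z).card / 2) := mul_nonneg hmu (by positivity)
  have hE : ((EX x N z).card : ℝ) * (mu R z * ((PR z).card / 2)) ^ 2 ≤
      ∑ n ∈ I, (∑ i ∈ s, c i * a i n - ∑ i ∈ s, c i * κ i) ^ 2 := by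
    calc ((EX x N z).card : ℝ) * (mu R z * ((PR z).card / 2)) ^ 2
        = ∑ _n ∈ EX x N z, (mu R z * ((PR z).card / 2)) ^ 2 := by rw [sum_const, nsmul_eq_mul]
      _ ≤ ∑ n ∈ EX x N z, (∑ i ∈ s, c i * a i n - ∑ i ∈ s, c i * κ i) ^ 2 := by
          refine sum_le_sum fun n hn => ?_
          rw [mem_EX] at hn
          have h1 : ∑ i ∈ s, c i * a i n ≤ 0 := F_nonpos hn.2.2 hn.2.1 (PR z) (filter_subset _ _)
          rw [← neg_sq (∑ i ∈ s, c i * a i n - ∑ i ∈ s, c i * κ i)]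
          exact pow_le_pow_left₀ hM0 (by linarith) 2
      _ ≤ _ := sum_le_sum_of_subset_of_nonneg (fun n hn => (mem_EX.mp hn).1) fun n _ _ => sq_nonneg _
  exact hE.trans (hvar.trans hrhs)

end Pool.GDS
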