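import Pool.Agent.Helper53.GDS.Final

/-!
# The bound for the number of exceptional integers in an interval
-/

set_option autoImplicit false

namespace Pool.GDS

open Finset Pool.Agent.Helper29.QT

/-- the second moment inequality with explicit parameters -/
lemma EX_le : ∃ z₂ : ℕ, 2 ≤ z₂ ∧ ∀ z x N : ℕ, z₂ ≤ z → z ^ 13 ≤ N →
    ((EX x N z).card : ℝ) ≤ 80000 ^ 2 * 16904 * Real.log z ^ 4 * N * PP (z ^ 2) / z := by
  obtain ⟨z₀, hz₀, h0⟩ := card_primes
  obtain ⟨z₁, hz₁, h1⟩ := mu_ge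
  refine ⟨max z₀ z₁, (le_trans (by omega) (le_max_left z₀ z₁)), fun z x N hz hN => ?_⟩
  have hz0 := h0 z ((le_max_left _ _).trans hz)
  have hz1 := h1 z ((le_max_right _ _).trans hz)
  have hz2 : 2 ≤ z := hz₁.trans ((le_max_right _ _).trans hz)
  have hzR : z ≤ z ^ 2 := by nlinarith
  have hzpos : (0 : ℝ) < z := by exact_mod_cast (by omega : 0 < z)
  have hl : 0 < Real.log (z : ℝ) := Real.log_pos (by exact_mod_cast (by omega : 1 < z))
  set l := Real.log (z : ℝ) with hldef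
  have hmu0 : 0 ≤ mu (z ^ 2) z := le_trans (by positivity) hz1
  have hmain := main_ineq (R := z ^ 2) x N (by omega : 1 ≤ z) hzR hmu0
  have hPP := one_le_PP (z ^ 2)
  set E : ℝ := ((EX x N z).card : ℝ) with hE
  have hE0 : 0 ≤ E := Nat.cast_nonneg _
  -- the lower bound for the mean value
  have h2 : (z : ℝ) / (4 * l) ≤ (PR z).card := by
    rw [div_le_iff₀ (by positivity)]
    have : (((prs z).filter (fun p => z / 4 < p)).card : ℝ) = (PR z).card := rfl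
    rw [this] at hz0
    linarith
  have h3 : (z : ℝ) / (80000 * l ^ 2) ≤ mu (z ^ 2) z * ((PR z).card / 2) := by
    calc (z : ℝ) / (80000 * l ^ 2) = 1 / (10000 * l) * ((z : ℝ) / (4 * l) / 2) := by
          field_simp
          ring
      _ ≤ _ := mul_le_mul hz1 (by linarith) (by positivity) hmu0
  have h4 : E * ((z : ℝ) / (80000 * l ^ 2)) ^ 2 ≤
      N * (16901 * z * PP (z ^ 2)) + 3 * (z : ℝ) ^ 2 * (z * (((z ^ 2 : ℕ) : ℝ) ^ 2 * z)) ^ 2 :=
    le_trans (mul_le_mul_of_nonneg_left (pow_le_pow_left₀ (by positivity) h3 2) hE0) hmain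
  have h5 : 3 * (z : ℝ) ^ 2 * (z * (((z ^ 2 : ℕ) : ℝ) ^ 2 * z)) ^ 2 = 3 * (z : ℝ) ^ 13 * z := by
    push_cast
    ring
  have h6 : (z : ℝ) ^ 13 ≤ N := by exact_mod_cast hN
  have hN0 : (0 : ℝ) ≤ N := Nat.cast_nonneg _
  have h7 : 3 * (z : ℝ) ^ 13 * z ≤ 3 * (N * PP (z ^ 2)) * z := by
    have h8 : (z : ℝ) ^ 13 ≤ N * PP (z ^ 2) := by
      calc (z : ℝ) ^ 13 ≤ N := h6
        _ = N * 1 := (mul_one _).symm
        _ ≤ _ := mul_le_mul_of_nonneg_left hPP hN0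
    have := mul_le_mul_of_nonneg_right h8 hzpos.le
    linarith
  have h8 : E * ((z : ℝ) / (80000 * l ^ 2)) ^ 2 ≤ 16904 * (N * PP (z ^ 2)) * z := by
    rw [h5] at h4
    linarith
  have h9 : E * ((z : ℝ) / (80000 * l ^ 2)) ^ 2 = E * z / (80000 ^ 2 * l ^ 4) * z := by
    field_simp
  rw [h9] at h8
  have h10 := le_of_mul_le_mul_right h8 hzpos
  rw [div_le_iff₀ (by positivity)] at h10
  rw [le_div_iff₀ hzpos]
  linarith

lemma log_pow_le {δ : ℝ} (hδ : 0 < δ) : ∃ C : ℝ, 0 < C ∧ ∀ z : ℕ, 1 ≤ z → Real.log z ^ 4 ≤ C * (z : ℝ) ^ δ := by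
  refine ⟨(4 / δ) ^ 4, by positivity, fun z hz => ?_⟩
  have hz0 : (0 : ℝ) ≤ z := Nat.cast_nonneg _
  have h1 := Real.log_le_rpow_div hz0 (by positivity : 0 < δ / 4)
  have h2 : 0 ≤ Real.log (z : ℝ) := Real.log_natCast_nonneg z
  calc Real.log z ^ 4 ≤ ((z : ℝ) ^ (δ / 4) / (δ / 4)) ^ 4 := pow_le_pow_left₀ h2 h1 4
    _ = (4 / δ) ^ 4 * ((z : ℝ) ^ (δ / 4)) ^ 4 := by
        field_simp
    _ = (4 / δ) ^ 4 * (z : ℝ) ^ δ := by
        rw [← Real.rpow_natCast ((z : ℝ) ^ (δ / 4)) 4, ← Real.rpow_mul hz0]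
        congr 2
        push_cast
        ring

/-- all but few integers of an interval are not exceptional -/
theorem sparse {ε : ℝ} (hε : 0 < ε) : ∃ C : ℝ, ∀ (x N : ℕ) (S : Finset ℕ),
    (∀ n ∈ S, n ∈ Ioc x (x + N) ∧ AllPrime n) → (S.card : ℝ) ≤ C * (N : ℝ) ^ (12 / 13 + ε) := by
  classical
  obtain ⟨z₂, hz₂, hEX⟩ := EX_le
  obtain ⟨C₁, hC₁, hlog⟩ := log_pow_le hε
  obtain ⟨C₂, hC₂, hprod⟩ := prod_le_rpow (k := 64) (by norm_num) hε
  set A : ℝ := 80000 ^ 2 * 16904 with hA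
  refine ⟨((z₂ + 1) ^ 13 : ℕ) + 2 + 2 * (A * C₁ * C₂), fun x N S hS => ?_⟩
  have hApos : 0 < A := by
    rw [hA]
    norm_num
  have hcardN : (S.card : ℝ) ≤ N := by
    have h1 : S ⊆ Ioc x (x + N) := fun n hn => (hS n hn).1
    have h2 := card_le_card h1
    rw [Nat.card_Ioc] at h2
    exact_mod_cast (by omega : S.card ≤ N)
  rcases Nat.eq_zero_or_pos N with h0 | hN
  · subst h0
    rw [Nat.cast_zero, Real.zero_rpow (by positivity), mul_zero]
    exact_mod_cast hcardN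
  have hN1 : (1 : ℝ) ≤ N := by exact_mod_cast hN
  have hN0 : (0 : ℝ) < N := by linarith
  have hpow1 : 1 ≤ (N : ℝ) ^ (12 / 13 + ε) := Real.one_le_rpow hN1 (by positivity)
  set z := ⌊(N : ℝ) ^ ((1 : ℝ) / 13)⌋₊ with hz
  have hNr0 : 0 ≤ (N : ℝ) ^ ((1 : ℝ) / 13) := by positivity
  have hz1 : (z : ℝ) ≤ (N : ℝ) ^ ((1 : ℝ) / 13) := Nat.floor_le hNr0
  have hz2 : (N : ℝ) ^ ((1 : ℝ) / 13) < z + 1 := Nat.lt_floor_add_one _
  have hpow13 : ((N : ℝ) ^ ((1 : ℝ) / 13)) ^ 13 = N := by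
    rw [← Real.rpow_natCast, ← Real.rpow_mul hN0.le]
    norm_num
  rcases Nat.lt_or_ge z z₂ with hlt | hge
  · -- the length is bounded
    have h1 : (N : ℝ) ≤ ((z₂ + 1) ^ 13 : ℕ) := by
      rw [← hpow13]
      push_cast
      refine pow_le_pow_left₀ hNr0 ?_ 13
      have : (z : ℝ) < z₂ := by exact_mod_cast hlt
      linarith
    have h2 : 0 ≤ 2 * (A * C₁ * C₂) := by positivity
    have h3 : (0 : ℝ) ≤ ((z₂ + 1) ^ 13 : ℕ) := Nat.cast_nonneg _
    calc (S.card : ℝ) ≤ (((z₂ + 1) ^ 13 : ℕ) + 2 + 2 * (A * C₁ * C₂)) * 1 := by linarith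
      _ ≤ _ := mul_le_mul_of_nonneg_left hpow1 (by linarith)
  · have hzpos : 0 < z := by omega
    have hz0 : (0 : ℝ) < z := by exact_mod_cast hzpos
    have hz1' : (1 : ℝ) ≤ z := by exact_mod_cast hzpos
    have hzN : z ^ 13 ≤ N := by
      have h1 : (z : ℝ) ^ 13 ≤ N := by
        rw [← hpow13]
        exact pow_le_pow_left₀ hz0.le hz1 13
      exact_mod_cast h1
    have h2 := hEX z x N hge hzN
    have h3 : PP (z ^ 2) ≤ C₂ * ((z : ℝ) ^ ε * (z : ℝ) ^ ε) := by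
      have h4 := hprod (z ^ 2) (Nat.one_le_pow _ _ hzpos)
      unfold PP
      refine h4.trans (le_of_eq ?_)
      push_cast
      rw [sq, Real.mul_rpow hz0.le hz0.le]
    have h4 := hlog z hzpos
    have hle1 : (z : ℝ) ^ ε ≤ (N : ℝ) ^ (ε / 13) := by
      calc (z : ℝ) ^ ε ≤ ((N : ℝ) ^ ((1 : ℝ) / 13)) ^ ε := Real.rpow_le_rpow hz0.le hz1 hε.le
        _ = _ := by
          rw [← Real.rpow_mul hN0.le]
          congr 1
          ring
    have hle2 : 1 / (z : ℝ) ≤ 2 * (N : ℝ) ^ (-((1 : ℝ) / 13)) := by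
      rw [Real.rpow_neg hN0.le]
      rw [← div_eq_mul_inv, div_le_div_iff₀ hz0 (by positivity)]
      linarith
    have hzε : 0 ≤ (z : ℝ) ^ ε := by positivity
    have hNe : 0 ≤ (N : ℝ) ^ (ε / 13) := by positivity
    have h5 : ((EX x N z).card : ℝ) ≤ 2 * (A * C₁ * C₂) * (N : ℝ) ^ (12 / 13 + ε) := by
      have hPP0 : 0 ≤ PP (z ^ 2) := by linarith [one_le_PP (z ^ 2)]
      have hlog0 : 0 ≤ Real.log (z : ℝ) := Real.log_natCast_nonneg z
      calc ((EX x N z).card : ℝ) ≤ A * Real.log z ^ 4 * N * PP (z ^ 2) / z := h2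
        _ = A * (Real.log z ^ 4 * PP (z ^ 2)) * N * (1 / z) := by ring
        _ ≤ A * ((C₁ * (z : ℝ) ^ ε) * (C₂ * ((z : ℝ) ^ ε * (z : ℝ) ^ ε))) * N *
              (2 * (N : ℝ) ^ (-((1 : ℝ) / 13))) := by
            refine mul_le_mul ?_ hle2 (by positivity) (by positivity)
            refine mul_le_mul_of_nonneg_right ?_ hN0.le
            refine mul_le_mul_of_nonneg_left ?_ hApos.le
            exact mul_le_mul h4 h3 hPP0 (by positivity)
        _ = 2 * (A * C₁ * C₂) * (((z : ℝ) ^ ε) ^ 3 * (N * (N : ℝ) ^ (-((1 : ℝ) / 13)))) := by ring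
        _ ≤ 2 * (A * C₁ * C₂) * (((N : ℝ) ^ (ε / 13)) ^ 3 * (N * (N : ℝ) ^ (-((1 : ℝ) / 13)))) := by
            refine mul_le_mul_of_nonneg_left ?_ (by positivity)
            refine mul_le_mul_of_nonneg_right ?_ (by positivity)
            exact pow_le_pow_left₀ hzε hle1 3
        _ ≤ 2 * (A * C₁ * C₂) * (N : ℝ) ^ (12 / 13 + ε) := by
            refine mul_le_mul_of_nonneg_left ?_ (by positivity)
            have h6 : ((N : ℝ) ^ (ε / 13)) ^ 3 * (N * (N : ℝ) ^ (-((1 : ℝ) / 13))) =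
                (N : ℝ) ^ (3 * ε / 13 + (1 + -((1 : ℝ) / 13))) := by
              rw [Real.rpow_add hN0, Real.rpow_add hN0, Real.rpow_one, ← Real.rpow_natCast,
                ← Real.rpow_mul hN0.le]
              congr 2
              push_cast
              ring
            rw [h6]
            refine Real.rpow_le_rpow_of_exponent_le hN1 ?_
            linarith
    have h6 : S ⊆ (Icc 1 (2 * z)) ∪ EX x N z := by
      intro n hn
      have h7 := hS n hn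
      rw [mem_union, mem_Icc, mem_EX]
      rcases Nat.lt_or_ge n (2 * z) with h8 | h8
      · left
        have := mem_Ioc.mp h7.1
        omega
      · right
        exact ⟨h7.1, h8, h7.2⟩
    have h7 : (S.card : ℝ) ≤ 2 * z + (EX x N z).card := by
      have h8 := (card_le_card h6).trans (card_union_le _ _)
      rw [Nat.card_Icc] at h8
      have h9 : S.card ≤ 2 * z + (EX x N z).card := by omega
      exact_mod_cast h9
    have h8 : (z : ℝ) ≤ (N : ℝ) ^ (12 / 13 + ε) :=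
      hz1.trans (Real.rpow_le_rpow_of_exponent_le hN1 (by linarith))
    have h9 : (0 : ℝ) ≤ ((z₂ + 1) ^ 13 : ℕ) * (N : ℝ) ^ (12 / 13 + ε) := by positivity
    calc (S.card : ℝ) ≤ 2 * z + (EX x N z).card := h7
      _ ≤ 2 * (N : ℝ) ^ (12 / 13 + ε) + 2 * (A * C₁ * C₂) * (N : ℝ) ^ (12 / 13 + ε) := by linarith
      _ ≤ _ := by linarith

end Pool.GDS
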