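import Pool.Agent.Helper53.GDS.Prod

/-!
# Bounds of Chebyshev and Mertens
-/

set_option autoImplicit false

namespace Pool.GDS

open Finset

lemma theta_eq (n : ℕ) : Chebyshev.theta (n : ℝ) = ∑ p ∈ prs n, Real.log p := by
  rw [Chebyshev.theta_eq_sum_Icc, Nat.floor_natCast]
  refine sum_congr ?_ fun _ _ => rfl
  ext p
  rw [mem_filter, mem_prs, mem_Icc]
  constructor
  · rintro ⟨⟨_, h⟩, h'⟩
    exact ⟨h', h⟩
  · rintro ⟨h, h'⟩
    exact ⟨⟨Nat.zero_le _, h'⟩, h⟩

lemma theta_le (n : ℕ) : ∑ p ∈ prs n, Real.log p ≤ Real.log 4 * n := by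
  rw [← theta_eq]
  exact Chebyshev.theta_le_log4_mul_x (Nat.cast_nonneg n)

lemma prod_dvd_factorial (n : ℕ) : ∏ p ∈ prs n, p ^ (n / p) ∣ n.factorial := by
  refine Finset.prod_dvd_of_isRelPrime ?_ ?_
  · intro p hp q hq hpq
    rw [mem_coe, mem_prs] at hp hq
    have : (p ^ (n / p)).Coprime (q ^ (n / q)) := ((Nat.coprime_primes hp.1 hq.1).mpr hpq).pow _ _
    exact Nat.coprime_iff_isRelPrime.mp this
  · intro p hp
    rw [mem_prs] at hp
    have h1 : Nat.log p n < Nat.log p n + 2 := by omega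
    rw [hp.1.pow_dvd_factorial_iff h1]
    have h2 : 1 ∈ Ico 1 (Nat.log p n + 2) := by
      rw [mem_Ico]
      omega
    calc n / p = n / p ^ 1 := by rw [pow_one]
      _ ≤ _ := single_le_sum (f := fun i => n / p ^ i) (fun i _ => Nat.zero_le _) h2

/-- upper bound of Mertens -/
lemma mertens {n : ℕ} (hn : 1 ≤ n) : ∑ p ∈ prs n, Real.log p / p ≤ Real.log n + Real.log 4 := by
  have hn' : (0 : ℝ) < n := by exact_mod_cast hn
  have h1 : ∑ p ∈ prs n, ((n / p : ℕ) : ℝ) * Real.log p ≤ n * Real.log n := by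
    have h2 : (∏ p ∈ prs n, p ^ (n / p) : ℕ) ≤ n ^ n :=
      (Nat.le_of_dvd (Nat.factorial_pos n) (prod_dvd_factorial n)).trans (Nat.factorial_le_pow n)
    have h3 : Real.log ((∏ p ∈ prs n, p ^ (n / p) : ℕ) : ℝ) ≤ Real.log ((n ^ n : ℕ) : ℝ) := by
      refine Real.log_le_log ?_ (by exact_mod_cast h2)
      exact_mod_cast Finset.prod_pos fun p hp => pow_pos (mem_prs.mp hp).1.pos _
    push_cast at h3
    rw [Real.log_prod, Real.log_pow] at h3
    · simpa [Real.log_pow] using h3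
    · intro p hp
      have := (mem_prs.mp hp).1.pos
      positivity
  have h2 : ∀ p ∈ prs n, (n : ℝ) * (Real.log p / p) ≤ ((n / p : ℕ) : ℝ) * Real.log p + Real.log p := by
    intro p hp
    have hp0 : (0 : ℝ) < p := by exact_mod_cast (mem_prs.mp hp).1.pos
    have hlog : 0 ≤ Real.log p := Real.log_natCast_nonneg p
    have h3 : (n : ℝ) / p ≤ ((n / p : ℕ) : ℝ) + 1 := by
      have := Nat.lt_div_mul_add (a := n) (mem_prs.mp hp).1.pos
      rw [div_le_iff₀ hp0]
      have h4 : n ≤ (n / p + 1) * p := by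
        rw [add_mul, one_mul]
        exact this.le
      exact_mod_cast h4
    calc (n : ℝ) * (Real.log p / p) = (n / p) * Real.log p := by ring
      _ ≤ (((n / p : ℕ) : ℝ) + 1) * Real.log p := mul_le_mul_of_nonneg_right h3 hlog
      _ = _ := by ring
  have h3 : (n : ℝ) * ∑ p ∈ prs n, Real.log p / p ≤ n * (Real.log n + Real.log 4) := by
    rw [mul_sum]
    refine (sum_le_sum h2).trans ?_
    rw [sum_add_distrib]
    have := theta_le n
    nlinarith
  exact le_of_mul_le_mul_left h3 hn'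

lemma recip {δ : ℝ} (hδ : 0 < δ) : ∃ C : ℝ, 0 ≤ C ∧ ∀ n : ℕ, 1 ≤ n → ∑ p ∈ prs n, 1 / (p : ℝ) ≤ δ * Real.log n + C := by
  obtain ⟨K, hK⟩ := exists_nat_gt (Real.exp (1 / δ))
  have hK0 : (0 : ℝ) < K := (Real.exp_pos _).trans hK
  have hlogK : 1 / δ < Real.log K := by
    rw [Real.lt_log_iff_exp_lt hK0]
    exact hK
  have hlogK0 : 0 < Real.log K := lt_trans (by positivity) hlogK
  refine ⟨K + δ * Real.log 4, by positivity, fun n hn => ?_⟩
  have hlogn : 0 ≤ Real.log n := Real.log_natCast_nonneg n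
  rw [← sum_filter_add_sum_filter_not (prs n) (fun p => p ≤ K)]
  have h1 : ∑ p ∈ (prs n).filter (fun p => p ≤ K), 1 / (p : ℝ) ≤ K := by
    calc _ ≤ ∑ p ∈ (prs n).filter (fun p => p ≤ K), (1 : ℝ) := by
          refine sum_le_sum fun p hp => ?_
          have h2 : (1 : ℝ) ≤ p := by exact_mod_cast (mem_prs.mp (mem_filter.mp hp).1).1.one_lt.le
          rw [div_le_one (by linarith)]
          exact h2
      _ = (((prs n).filter (fun p => p ≤ K)).card : ℝ) := by rw [sum_const, nsmul_eq_mul, mul_one]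
      _ ≤ ((Icc 1 K).card : ℝ) := by
          exact_mod_cast card_le_card fun p hp => by
            rw [mem_filter, mem_prs] at hp
            rw [mem_Icc]
            exact ⟨hp.1.1.one_lt.le, hp.2⟩
      _ = K := by simp
  have h2 : ∑ p ∈ (prs n).filter (fun p => ¬ p ≤ K), 1 / (p : ℝ) ≤ δ * (Real.log n + Real.log 4) := by
    have h3 : ∀ p ∈ (prs n).filter (fun p => ¬ p ≤ K), 1 / (p : ℝ) ≤ δ * (Real.log p / p) := by
      intro p hp
      rw [mem_filter, mem_prs] at hp
      have hp0 : (0 : ℝ) < p := by exact_mod_cast hp.1.1.pos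
      have h4 : Real.log K ≤ Real.log p := Real.log_le_log hK0 (by exact_mod_cast (not_le.mp hp.2).le)
      have h5 : 1 ≤ δ * Real.log p := by
        have h6 : δ * (1 / δ) ≤ δ * Real.log p := mul_le_mul_of_nonneg_left (hlogK.le.trans h4) hδ.le
        rwa [mul_one_div_cancel hδ.ne'] at h6
      rw [← mul_div_assoc]
      exact div_le_div_of_nonneg_right h5 hp0.le
    refine (sum_le_sum h3).trans ?_
    rw [← mul_sum]
    refine mul_le_mul_of_nonneg_left (le_trans ?_ (mertens hn)) hδ.le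
    refine sum_le_sum_of_subset_of_nonneg (filter_subset _ _) fun p _ _ => ?_
    exact div_nonneg (Real.log_natCast_nonneg p) (Nat.cast_nonneg p)
  linarith

lemma prod_le_rpow {k δ : ℝ} (hk : 0 ≤ k) (hδ : 0 < δ) : ∃ C : ℝ, 0 < C ∧ ∀ n : ℕ, 1 ≤ n →
    ∏ p ∈ prs n, (1 + k / (p : ℝ)) ≤ C * (n : ℝ) ^ δ := by
  obtain ⟨C, hC, h⟩ := recip (δ := δ / (k + 1)) (by positivity)
  refine ⟨Real.exp (k * C), Real.exp_pos _, fun n hn => ?_⟩
  have hn' : (0 : ℝ) < n := by exact_mod_cast hn
  have hlogn : 0 ≤ Real.log n := Real.log_natCast_nonneg n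
  have h1 : ∏ p ∈ prs n, (1 + k / (p : ℝ)) ≤ Real.exp (∑ p ∈ prs n, k / (p : ℝ)) := by
    rw [Real.exp_sum]
    refine prod_le_prod (fun p _ => by positivity) fun p _ => ?_
    rw [add_comm]
    exact Real.add_one_le_exp _
  have h2 : ∑ p ∈ prs n, k / (p : ℝ) ≤ k * C + Real.log n * δ := by
    have h3 : ∑ p ∈ prs n, k / (p : ℝ) = k * ∑ p ∈ prs n, 1 / (p : ℝ) := by
      rw [mul_sum]
      exact sum_congr rfl fun p _ => by ring
    rw [h3]
    have h4 := mul_le_mul_of_nonneg_left (h n hn) hk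
    have h5 : k * (δ / (k + 1) * Real.log n) ≤ Real.log n * δ := by
      have h6 : k / (k + 1) ≤ 1 := by
        rw [div_le_one (by linarith)]
        linarith
      calc k * (δ / (k + 1) * Real.log n) = (k / (k + 1)) * (Real.log n * δ) := by ring
        _ ≤ 1 * (Real.log n * δ) := mul_le_mul_of_nonneg_right h6 (by positivity)
        _ = _ := one_mul _
    linarith
  refine h1.trans ((Real.exp_le_exp.mpr h2).trans ?_)
  rw [Real.exp_add, Real.rpow_def_of_pos hn']

lemma card_primes : ∃ z₀ : ℕ, 4 ≤ z₀ ∧ ∀ z : ℕ, z₀ ≤ z →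
    (z : ℝ) / 4 ≤ (((prs z).filter (fun p => z / 4 < p)).card : ℝ) * Real.log z := by
  have h1 : ∀ᶠ z : ℝ in Filter.atTop, Real.log (z + 1) + 2 * √z * Real.log z ≤ (1 / 2 * Real.log 2 - 1 / 4) * z := by
    have hlog2 := Real.log_two_gt_d9
    have hc : 0 < (1 / 2 * Real.log 2 - 1 / 4) := by linarith
    have ha : (fun z : ℝ => Real.log (z + 1)) =o[Filter.atTop] fun z => z := by
      have h2 := Real.isLittleO_log_id_atTop.comp_tendsto (Filter.tendsto_atTop_add_const_right _ (1 : ℝ) Filter.tendsto_id)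
      refine h2.trans_isBigO ?_
      refine Asymptotics.IsBigO.of_bound 2 ?_
      filter_upwards [Filter.eventually_ge_atTop (1 : ℝ)] with z hz
      simp only [Function.comp, id, Real.norm_eq_abs]
      rw [abs_of_nonneg (by linarith), abs_of_nonneg (by linarith)]
      linarith
    have hb : (fun z : ℝ => 2 * √z * Real.log z) =o[Filter.atTop] fun z => z := by
      have h3 : (fun z : ℝ => Real.log z) =o[Filter.atTop] fun z => √z := by
        have := isLittleO_log_rpow_atTop (r := 1 / 2) (by norm_num)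
        refine this.congr_right fun z => ?_
        rw [Real.sqrt_eq_rpow]
      have h4 : (fun z : ℝ => 2 * √z * Real.log z) =o[Filter.atTop] fun z => 2 * √z * √z := by
        exact Asymptotics.IsBigO.mul_isLittleO (Asymptotics.isBigO_refl _ _) h3
      refine h4.trans_isBigO ?_
      refine Asymptotics.IsBigO.of_bound 2 ?_
      filter_upwards [Filter.eventually_ge_atTop (0 : ℝ)] with z hz
      rw [mul_assoc, Real.mul_self_sqrt hz, norm_mul, Real.norm_ofNat]
    have hab := (ha.add hb).def hc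
    filter_upwards [hab, Filter.eventually_ge_atTop (0 : ℝ)] with z hz hz0
    rw [Real.norm_eq_abs, Real.norm_eq_abs, abs_of_nonneg hz0] at hz
    exact (le_abs_self _).trans hz
  obtain ⟨X, hX⟩ := Filter.eventually_atTop.mp h1
  refine ⟨max 4 ⌈X⌉₊, le_max_left _ _, fun z hz => ?_⟩
  have hz4 : 4 ≤ z := le_trans (le_max_left _ _) hz
  have hzX : X ≤ z := (Nat.le_ceil X).trans (by exact_mod_cast le_trans (le_max_right _ _) hz)
  have h2 := hX z hzX
  have h3 := Chebyshev.theta_ge z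
  have h4 := theta_le (z / 4)
  rw [theta_eq] at h3
  have h5 : ((z / 4 : ℕ) : ℝ) ≤ z / 4 := Nat.cast_div_le
  have h6 : ∑ p ∈ prs z, Real.log p = ∑ p ∈ prs (z / 4), Real.log p +
      ∑ p ∈ (prs z).filter (fun p => z / 4 < p), Real.log p := by
    rw [← sum_filter_add_sum_filter_not (prs z) (fun p => p ≤ z / 4)]
    congr 1
    · refine sum_congr ?_ fun _ _ => rfl
      ext p
      rw [mem_filter, mem_prs, mem_prs]
      constructor
      · rintro ⟨⟨h7, _⟩, h8⟩
        exact ⟨h7, h8⟩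
      · rintro ⟨h7, h8⟩
        exact ⟨⟨h7, h8.trans (Nat.div_le_self _ _)⟩, h8⟩
    · refine sum_congr ?_ fun _ _ => rfl
      ext p
      rw [mem_filter, mem_filter, not_le]
  have h7 : ∑ p ∈ (prs z).filter (fun p => z / 4 < p), Real.log p ≤
      (((prs z).filter (fun p => z / 4 < p)).card : ℝ) * Real.log z := by
    rw [← nsmul_eq_mul, ← sum_const]
    refine sum_le_sum fun p hp => ?_
    rw [mem_filter, mem_prs] at hp
    exact Real.log_le_log (by exact_mod_cast hp.1.1.pos) (by exact_mod_cast hp.1.2)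
  have h8 : Real.log 4 = 2 * Real.log 2 := by
    rw [show (4 : ℝ) = 2 ^ 2 by norm_num, Real.log_pow]
    norm_num
  have h9 : Real.log 4 * ((z / 4 : ℕ) : ℝ) ≤ 2 * Real.log 2 * (z / 4) := by
    rw [h8]
    exact mul_le_mul_of_nonneg_left h5 (by positivity)
  nlinarith

end Pool.GDS
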