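import Pool.Agent.Helper53.GDS.Sieve
import Pool.Agent.Helper53.GDS.Mert

/-!
# The mean value of the weights is positive
-/

set_option autoImplicit false

namespace Pool.GDS

open Finset ArithmeticFunction Pool.Agent.Helper29.QT

lemma sum_inv_le {a n : ℕ} (ha : 1 ≤ a) (han : a ≤ n) :
    ∑ m ∈ Icc a n, 1 / (m : ℝ) ≤ 1 / a + Real.log (n / a) := by
  have ha' : (0 : ℝ) < a := by exact_mod_cast ha
  induction n, han using Nat.le_induction with
  | base =>
    rw [Icc_self, sum_singleton, div_self ha'.ne', Real.log_one, add_zero]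
  | succ n hn ih =>
    rw [sum_Icc_succ_top (by omega)]
    have hn' : (0 : ℝ) < n := by exact_mod_cast (by omega : 0 < n)
    have h1 : 1 / ((n + 1 : ℕ) : ℝ) ≤ Real.log (((n + 1 : ℕ) : ℝ) / n) := by
      have h2 := Real.one_sub_inv_le_log_of_pos (x := ((n + 1 : ℕ) : ℝ) / n) (by positivity)
      refine le_trans (le_of_eq ?_) h2
      push_cast
      field_simp
      ring
    have h3 : Real.log (((n + 1 : ℕ) : ℝ) / a) = Real.log ((n : ℝ) / a) + Real.log (((n + 1 : ℕ) : ℝ) / n) := by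
      rw [← Real.log_mul (by positivity) (by positivity)]
      congr 1
      field_simp
    linarith

lemma inner_bound {R d q : ℕ} (hd : 1 ≤ d) :
    ∑ m ∈ (Icc 1 (R / d)).filter (fun m => R < d * m * q), 1 / (m : ℝ) ≤ 1 + Real.log q := by
  classical
  have hlog : 0 ≤ Real.log q := Real.log_natCast_nonneg q
  set S := (Icc 1 (R / d)).filter (fun m => R < d * m * q) with hS
  rcases S.eq_empty_or_nonempty with h0 | h0
  · rw [h0, sum_empty]
    linarith
  · obtain ⟨a, ha, hmin⟩ := S.exists_min_image id h0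
    rw [hS, mem_filter, mem_Icc] at ha
    have ha0 : (0 : ℝ) < a := by exact_mod_cast ha.1.1
    have h1 : S ⊆ Icc a (R / d) := by
      intro m hm
      have h2 := hmin m hm
      rw [hS, mem_filter, mem_Icc] at hm
      rw [mem_Icc]
      exact ⟨h2, hm.1.2⟩
    have h2 : ((R / d : ℕ) : ℝ) / a ≤ q := by
      rw [div_le_iff₀ ha0]
      have h3 : R / d ≤ q * a := by
        have h4 : R / d * d ≤ R := Nat.div_mul_le_self R d
        by_contra h5
        push Not at h5
        have h6 : q * a * d < R / d * d := Nat.mul_lt_mul_of_pos_right h5 hd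
        have h7 : q * a * d = d * a * q := by ring
        omega
      exact_mod_cast h3
    have h3 : (1 : ℝ) ≤ ((R / d : ℕ) : ℝ) / a := by
      rw [one_le_div ha0]
      exact_mod_cast ha.1.2
    calc _ ≤ ∑ m ∈ Icc a (R / d), 1 / (m : ℝ) :=
          sum_le_sum_of_subset_of_nonneg h1 fun m _ _ => by positivity
      _ ≤ 1 / a + Real.log (((R / d : ℕ) : ℝ) / a) := sum_inv_le ha.1.1 ha.1.2
      _ ≤ 1 + Real.log q := by
          refine add_le_add ?_ (Real.log_le_log (by linarith) h2)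
          rw [div_le_one ha0]
          exact_mod_cast ha.1.1

lemma sum_K0 (R : ℕ) : ∑ d ∈ sqf R, 1 / ((d : ℝ) * Nat.totient d) ≤ K0 := by
  refine le_trans ?_ (prod_le_K0 R)
  have h1 : ∀ d ∈ sqf R, 1 / ((d : ℝ) * Nat.totient d) =
      ∏ p ∈ d.primeFactors, max 0 (1 / ((p : ℝ) * (p - 1))) := by
    intro d hd
    have hd' := (mem_sqf.mp hd).2
    rw [totient_sqf hd']
    conv_lhs => rw [cast_sqf hd']
    rw [← prod_mul_distrib, one_div, ← prod_inv_distrib]
    refine prod_congr rfl fun p hp => ?_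
    have h2 : (1 : ℝ) < p := by exact_mod_cast (Nat.prime_of_mem_primeFactors hp).one_lt
    have h3 : (0 : ℝ) < p - 1 := by linarith
    rw [max_eq_right (by positivity), one_div]
  rw [sum_congr rfl h1]
  refine (sum_sqf_le (sqf R) (prs R) ?_ _ fun p => le_max_left _ _).trans (le_of_eq ?_)
  · intro d hd
    rw [mem_sqf] at hd
    refine ⟨hd.2, fun p hp => ?_⟩
    rw [mem_prs]
    exact ⟨Nat.prime_of_mem_primeFactors hp, (Nat.le_of_dvd hd.1.1 (Nat.dvd_of_mem_primeFactors hp)).trans hd.1.2⟩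
  · refine prod_congr rfl fun p hp => ?_
    have h2 : (1 : ℝ) < p := by exact_mod_cast (mem_prs.mp hp).1.one_lt
    have h3 : (0 : ℝ) < p - 1 := by linarith
    rw [max_eq_right (by positivity)]

lemma tail_bound {R q : ℕ} (hq : 1 ≤ q) :
    ∑ k ∈ (sqf R).filter (fun k => R < k * q), 1 / (Nat.totient k : ℝ) ≤ K0 * (1 + Real.log q) := by
  classical
  have hlog : 0 ≤ Real.log q := Real.log_natCast_nonneg q
  have h1 : ∀ k ∈ (sqf R).filter (fun k => R < k * q), 1 / (Nat.totient k : ℝ) =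
      ∑ d ∈ sqf R, if d ∣ k then 1 / (Nat.totient d : ℝ) * (1 / k) else 0 := by
    intro k hk
    rw [mem_filter, mem_sqf] at hk
    have hk0 : (k : ℝ) ≠ 0 := by exact_mod_cast (by omega : k ≠ 0)
    have h2 : k.divisors = (sqf R).filter (fun d => d ∣ k) := by
      ext d
      rw [Nat.mem_divisors, mem_filter, mem_sqf]
      constructor
      · rintro ⟨h3, h4⟩
        exact ⟨⟨⟨Nat.pos_of_dvd_of_pos h3 hk.1.1.1, (Nat.le_of_dvd hk.1.1.1 h3).trans hk.1.1.2⟩,
          hk.1.2.squarefree_of_dvd h3⟩, h3⟩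
      · rintro ⟨_, h3⟩
        exact ⟨h3, by omega⟩
    rw [← sum_filter, ← h2, ← sum_mul, sum_inv_totient hk.1.2]
    field_simp
  rw [sum_congr rfl h1, sum_comm]
  have h2 : ∀ d ∈ sqf R, (∑ k ∈ (sqf R).filter (fun k => R < k * q),
      if d ∣ k then 1 / (Nat.totient d : ℝ) * (1 / k) else 0) ≤
      1 / ((d : ℝ) * Nat.totient d) * (1 + Real.log q) := by
    intro d hd
    have hdt := tot_pos hd
    rw [mem_sqf] at hd
    have hd0 : (0 : ℝ) < d := by exact_mod_cast hd.1.1
    rw [← sum_filter, ← mul_sum]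
    have h3 : ∑ k ∈ ((sqf R).filter (fun k => R < k * q)).filter (fun k => d ∣ k), 1 / (k : ℝ) ≤
        1 / d * ∑ m ∈ (Icc 1 (R / d)).filter (fun m => R < d * m * q), 1 / (m : ℝ) := by
      rw [mul_sum]
      have h4 : ∀ m ∈ (Icc 1 (R / d)).filter (fun m => R < d * m * q), 1 / (d : ℝ) * (1 / m) =
          1 / ((d * m : ℕ) : ℝ) := by
        intro m _
        push_cast
        rw [div_mul_div_comm, one_mul]
      rw [sum_congr rfl h4, ← sum_image (f := fun k : ℕ => 1 / (k : ℝ))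
        (fun m _ m' _ h => Nat.eq_of_mul_eq_mul_left hd.1.1 h)]
      refine sum_le_sum_of_subset_of_nonneg ?_ fun k _ _ => by positivity
      intro k hk
      rw [mem_filter, mem_filter, mem_sqf] at hk
      obtain ⟨⟨⟨⟨h5, h6⟩, _⟩, h7⟩, m, rfl⟩ := hk
      rw [mem_image]
      refine ⟨m, ?_, rfl⟩
      rw [mem_filter, mem_Icc]
      refine ⟨⟨Nat.pos_of_mul_pos_left (by omega : 0 < d * m) |> fun h => by
        rcases Nat.eq_zero_or_pos m with h8 | h8
        · rw [h8, mul_zero] at h5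
          omega
        · exact h8, ?_⟩, h7⟩
      rw [Nat.le_div_iff_mul_le hd.1.1, mul_comm]
      exact h6
    calc _ ≤ 1 / (Nat.totient d : ℝ) * (1 / d * (1 + Real.log q)) := by
          refine mul_le_mul_of_nonneg_left (h3.trans ?_) (by positivity)
          exact mul_le_mul_of_nonneg_left (inner_bound hd.1.1) (by positivity)
      _ = _ := by field_simp
  refine (sum_le_sum h2).trans ?_
  rw [← sum_mul]
  exact mul_le_mul_of_nonneg_right (sum_K0 R) (by linarith)

/-- the sum over `q` of the twisted terms -/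
lemma sum_twisted_le {R z : ℕ} (hR : 1 ≤ R) :
    ∑ q ∈ prs z, ∑ d ∈ sqf R, ∑ e ∈ sqf R, lam R d * lam R e / (Nat.lcm (Nat.lcm d e) q : ℝ) ≤
      K0 * (∑ q ∈ prs z, (1 / (q : ℝ) + Real.log q / q)) / GG R ^ 2 := by
  have hG := GG_pos hR
  rw [mul_sum, sum_div]
  refine sum_le_sum fun q hq => ?_
  have hq' := (mem_prs.mp hq).1
  have hq0 : (0 : ℝ) < q := by exact_mod_cast hq'.pos
  rw [twisted hR hq']
  refine div_le_div_of_nonneg_right ?_ (by positivity)
  have h1 : ∑ k ∈ (sqf R).filter (fun k => ¬ q ∣ k ∧ R < k * q), 1 / (Nat.totient k : ℝ) ≤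
      K0 * (1 + Real.log q) := by
    refine le_trans (sum_le_sum_of_subset_of_nonneg ?_ fun k _ _ => by positivity) (tail_bound (R := R) hq'.one_lt.le)
    intro k hk
    rw [mem_filter] at hk ⊢
    exact ⟨hk.1, hk.2.2⟩
  calc 1 / (q : ℝ) * _ ≤ 1 / q * (K0 * (1 + Real.log q)) := mul_le_mul_of_nonneg_left h1 (by positivity)
    _ = _ := by ring

lemma main_sqf {R : ℕ} (hR : 1 ≤ R) :
    ∑ d ∈ sqf R, ∑ e ∈ sqf R, lam R d * lam R e / (Nat.lcm d e : ℝ) = 1 / GG R := by
  have hsub : ∀ f : ℕ → ℝ, (∀ d, ¬ Squarefree d → f d = 0) → ∑ d ∈ sqf R, f d = ∑ d ∈ Icc 1 R, f d := by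
    intro f hf
    unfold sqf
    rw [sum_filter]
    refine sum_congr rfl fun d _ => ?_
    split_ifs with h
    · rfl
    · rw [hf d h]
  rw [← main_term hR, hsub (fun d => ∑ e ∈ sqf R, lam R d * lam R e / (Nat.lcm d e : ℝ))
    fun d hd => sum_eq_zero fun e _ => by rw [lam_of_not_sqf hd]; ring]
  refine sum_congr rfl fun d _ => hsub _ fun e he => by rw [lam_of_not_sqf he]; ring

/-- the mean value of the weights -/
noncomputable def mu (R z : ℕ) : ℝ :=
  ∑ d ∈ sqf R, ∑ e ∈ sqf R, lam R d * lam R e / (Nat.lcm d e : ℝ) -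
    ∑ q ∈ prs z, ∑ d ∈ sqf R, ∑ e ∈ sqf R, lam R d * lam R e / (Nat.lcm (Nat.lcm d e) q : ℝ)

lemma GG_le {R : ℕ} (hR : 1 ≤ R) : GG R ≤ K0 * (1 + Real.log (R + 1)) := by
  have h := tail_bound (R := R) (q := R + 1) (by omega)
  have h1 : (sqf R).filter (fun k => R < k * (R + 1)) = sqf R := by
    rw [filter_true_of_mem]
    intro k hk
    have := (mem_sqf.mp hk).1.1
    nlinarith
  rw [h1] at h
  push_cast at h
  exact h

/-- positivity of the mean value, for `R = z ^ 2` -/
lemma mu_ge : ∃ z₁ : ℕ, 2 ≤ z₁ ∧ ∀ z : ℕ, z₁ ≤ z → 1 / (10000 * Real.log z) ≤ mu (z ^ 2) z := by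
  obtain ⟨C, hC, hrec⟩ := recip (δ := 1 / 1000) (by norm_num)
  -- K0 (log z + log 4 + log z / 1000 + C) ≤ ...
  have hlim : Filter.Tendsto (fun z : ℕ => Real.log (z : ℝ)) Filter.atTop Filter.atTop :=
    Real.tendsto_log_atTop.comp tendsto_natCast_atTop_atTop
  have hev : ∀ᶠ z : ℕ in Filter.atTop, 1000 * K0 * (Real.log 4 + C) + 10 ≤ Real.log (z : ℝ) :=
    hlim.eventually_ge_atTop _
  obtain ⟨X, hX⟩ := Filter.eventually_atTop.mp hev
  refine ⟨max 2 X, le_max_left _ _, fun z hz => ?_⟩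
  have hz2 : 2 ≤ z := (le_max_left _ _).trans hz
  have hz1 := hX z ((le_max_right _ _).trans hz)
  have hK := K0_lt
  have hKp := K0_pos
  have hz0 : (0 : ℝ) < z := by exact_mod_cast (by omega : 0 < z)
  have hlog4 : 0 ≤ Real.log 4 := Real.log_nonneg (by norm_num)
  set l := Real.log (z : ℝ) with hl
  have hl0 : 10 ≤ l := by
    have : 0 ≤ 1000 * K0 * (Real.log 4 + C) := by positivity
    linarith
  have hR : 1 ≤ z ^ 2 := Nat.one_le_pow _ _ (by omega)
  set G := GG (z ^ 2) with hGdef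
  have hG := GG_pos hR
  have hG1 : 2 * l ≤ G := by
    refine le_trans ?_ (log_le_GG (z ^ 2))
    have h1 : 2 * l = Real.log ((z : ℝ) ^ 2) := by
      rw [Real.log_pow, hl]
      norm_num
    rw [h1]
    refine Real.log_le_log (by positivity) ?_
    push_cast
    linarith
  have hG2 : G ≤ 6 * l := by
    have h1 := GG_le hR
    have h2 : Real.log (((z ^ 2 : ℕ) : ℝ) + 1) ≤ 2 * l + 0.7 := by
      have h3 : ((z ^ 2 : ℕ) : ℝ) + 1 ≤ 2 * (z : ℝ) ^ 2 := by
        push_cast
        have : (1 : ℝ) ≤ (z : ℝ) ^ 2 := by exact_mod_cast hR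
        linarith
      have h4 := Real.log_le_log (by positivity) h3
      have h5 : Real.log (2 * (z : ℝ) ^ 2) = Real.log 2 + 2 * l := by
        rw [Real.log_mul (by norm_num) (by positivity), Real.log_pow, hl]
        norm_num
      have := Real.log_two_lt_d9
      linarith
    have h3 : K0 * (1 + Real.log (((z ^ 2 : ℕ) : ℝ) + 1)) ≤ 1.986 * (1 + (2 * l + 0.7)) := by
      refine mul_le_mul hK.le (by linarith) ?_ (by norm_num)
      have := Real.log_nonneg (x := ((z ^ 2 : ℕ) : ℝ) + 1) (by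
        have : (0 : ℝ) ≤ ((z ^ 2 : ℕ) : ℝ) := Nat.cast_nonneg _
        linarith)
      linarith
    linarith
  have h1 : ∑ q ∈ prs z, (1 / (q : ℝ) + Real.log q / q) ≤ (1 + 1 / 1000) * l + (Real.log 4 + C) := by
    rw [sum_add_distrib]
    have h2 := hrec z (by omega)
    have h3 := mertens (n := z) (by omega)
    linarith
  unfold mu
  rw [main_sqf hR]
  have h2 := sum_twisted_le (z := z) hR
  have h3 : K0 * (∑ q ∈ prs z, (1 / (q : ℝ) + Real.log q / q)) / G ^ 2 ≤ (1.99 * l) / G ^ 2 := by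
    refine div_le_div_of_nonneg_right ?_ (by positivity)
    have h4 := mul_le_mul_of_nonneg_left h1 hKp.le
    have h5 : K0 * (Real.log 4 + C) ≤ l / 1000 := by linarith
    nlinarith
  have h4 : (1.99 * l) / G ^ 2 ≤ (1.99 / 2) * (1 / G) := by
    rw [div_le_iff₀ (by positivity)]
    have : (1.99 / 2) * (1 / G) * G ^ 2 = (1.99 / 2) * G := by field_simp
    rw [this]
    linarith
  have h5 : 1 / (10000 * l) ≤ (0.005 : ℝ) * (1 / G) := by
    have h6 : 1 / (6 * l) ≤ 1 / G := one_div_le_one_div_of_le hG hG2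
    have h7 : 1 / (10000 * l) ≤ 0.005 * (1 / (6 * l)) := by
      rw [one_div, one_div, mul_inv, mul_inv]
      have : 0 < l⁻¹ := by positivity
      norm_num
      linarith
    linarith
  linarith

end Pool.GDS
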