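import Mathlib

/-!
# Sums over squarefree numbers and products over primes
-/

set_option autoImplicit false

namespace Pool.GDS

open Finset

/-- the primes up to `n` -/
def prs (n : ℕ) : Finset ℕ := (Icc 1 n).filter Nat.Prime

lemma mem_prs {n p : ℕ} : p ∈ prs n ↔ p.Prime ∧ p ≤ n := by
  unfold prs
  rw [mem_filter, mem_Icc]
  constructor
  · rintro ⟨⟨_, h⟩, h'⟩
    exact ⟨h', h⟩
  · rintro ⟨h, h'⟩
    exact ⟨⟨h.one_lt.le, h'⟩, h⟩

/-- sums of multiplicative functions over squarefree numbers -/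
lemma sum_sqf_le (S Q : Finset ℕ) (hS : ∀ d ∈ S, Squarefree d ∧ d.primeFactors ⊆ Q) (g : ℕ → ℝ)
    (hg : ∀ p, 0 ≤ g p) : ∑ d ∈ S, ∏ p ∈ d.primeFactors, g p ≤ ∏ p ∈ Q, (1 + g p) := by
  rw [prod_one_add]
  have hinj : Set.InjOn Nat.primeFactors (S : Set ℕ) := by
    intro d hd e he h
    have h1 := Nat.prod_primeFactors_of_squarefree (hS d hd).1
    have h2 := Nat.prod_primeFactors_of_squarefree (hS e he).1
    rw [← h1, ← h2, h]
  rw [← sum_image (f := fun U => ∏ p ∈ U, g p) hinj]
  refine sum_le_sum_of_subset_of_nonneg ?_ fun U _ _ => prod_nonneg fun p _ => hg p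
  intro U hU
  rw [mem_image] at hU
  obtain ⟨d, hd, rfl⟩ := hU
  rw [mem_powerset]
  exact (hS d hd).2

lemma totient_sqf {d : ℕ} (hd : Squarefree d) : (Nat.totient d : ℝ) = ∏ p ∈ d.primeFactors, ((p : ℝ) - 1) := by
  have h1 := Nat.totient_mul_prod_primeFactors d
  rw [Nat.prod_primeFactors_of_squarefree hd] at h1
  have hd0 : 0 < d := Nat.pos_of_ne_zero hd.ne_zero
  have h2 : Nat.totient d = ∏ p ∈ d.primeFactors, (p - 1) := by
    rw [mul_comm] at h1
    exact Nat.eq_of_mul_eq_mul_left hd0 h1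
  rw [h2, Nat.cast_prod]
  refine prod_congr rfl fun p hp => ?_
  rw [Nat.cast_sub (Nat.prime_of_mem_primeFactors hp).one_lt.le, Nat.cast_one]

lemma cast_sqf {d : ℕ} (hd : Squarefree d) : (d : ℝ) = ∏ p ∈ d.primeFactors, (p : ℝ) := by
  conv_lhs => rw [← Nat.prod_primeFactors_of_squarefree hd]
  rw [Nat.cast_prod]

lemma sum_odd_le (n : ℕ) : ∑ k ∈ Icc 5 n, 1 / (((2 * k + 1 : ℕ) : ℝ) * (2 * k : ℕ)) ≤ 1 / 19 := by
  have h : ∀ m : ℕ, 4 ≤ m → ∑ k ∈ Icc 5 m, 1 / (((2 * k + 1 : ℕ) : ℝ) * (2 * k : ℕ)) ≤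
      1 / 19 - 1 / (4 * m + 3) := by
    intro m hm
    induction m, hm using Nat.le_induction with
    | base => norm_num
    | succ m hm ih =>
      rw [sum_Icc_succ_top (by omega)]
      have hm' : (4 : ℝ) ≤ m := by exact_mod_cast hm
      have h1 : 1 / (((2 * (m + 1) + 1 : ℕ) : ℝ) * (2 * (m + 1) : ℕ)) ≤
          1 / (4 * (m : ℝ) + 3) - 1 / (4 * ((m + 1 : ℕ) : ℝ) + 3) := by
        push_cast
        rw [div_sub_div _ _ (by positivity) (by positivity), div_le_div_iff₀ (by positivity) (by positivity)]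
        nlinarith
      linarith
  rcases Nat.lt_or_ge n 4 with h4 | h4
  · rw [Icc_eq_empty (by omega), sum_empty]
    norm_num
  · have h1 := h n h4
    have h2 : (0 : ℝ) ≤ 1 / (4 * (n : ℝ) + 3) := by positivity
    linarith

/-- the constant of the sieve -/
noncomputable def K0 : ℝ := 6321 / 3360 * (19 / 18)

lemma K0_lt : K0 < 1.986 := by
  unfold K0
  norm_num

lemma K0_pos : 0 < K0 := by
  unfold K0
  norm_num

lemma prod_le_K0 (n : ℕ) : ∏ p ∈ prs n, (1 + 1 / ((p : ℝ) * (p - 1))) ≤ K0 := by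
  classical
  have hpos : ∀ p : ℕ, 2 ≤ p → 0 < 1 / ((p : ℝ) * (p - 1)) := by
    intro p hp
    have : (2 : ℝ) ≤ p := by exact_mod_cast hp
    have h1 : (0 : ℝ) < p - 1 := by linarith
    positivity
  rw [← prod_filter_mul_prod_filter_not (prs n) (fun p => p < 11)]
  unfold K0
  refine mul_le_mul ?_ ?_ (prod_nonneg fun p hp => ?_) (by norm_num)
  · have h1 : (prs n).filter (fun p => p < 11) ⊆ {2, 3, 5, 7} := by
      intro p hp
      rw [mem_filter, mem_prs] at hp
      obtain ⟨⟨h2, _⟩, h3⟩ := hp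
      interval_cases p <;> first | (simp; done) | (exfalso; revert h2; norm_num; done)
    calc _ ≤ ∏ p ∈ ({2, 3, 5, 7} : Finset ℕ), (1 + 1 / ((p : ℝ) * (p - 1))) := by
          rw [← prod_sdiff h1]
          refine le_mul_of_one_le_left (prod_nonneg fun p hp => ?_) (Finset.one_le_prod fun p hp => ?_)
          · have := hpos p (mem_prs.mp (mem_filter.mp hp).1).1.two_le
            linarith
          · have h2 : 2 ≤ p := by
              have := (mem_sdiff.mp hp).1
              simp only [mem_insert, mem_singleton] at this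
              omega
            have := hpos p h2
            linarith
      _ ≤ _ := by norm_num
  · have h1 : ∏ p ∈ (prs n).filter (fun p => ¬ p < 11), (1 + 1 / ((p : ℝ) * (p - 1))) ≤
        Real.exp (∑ p ∈ (prs n).filter (fun p => ¬ p < 11), 1 / ((p : ℝ) * (p - 1))) := by
      rw [Real.exp_sum]
      refine prod_le_prod (fun p hp => ?_) fun p _ => ?_
      · have := hpos p (mem_prs.mp (mem_filter.mp hp).1).1.two_le
        linarith
      · rw [add_comm]
        exact Real.add_one_le_exp _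
    have h2 : ∑ p ∈ (prs n).filter (fun p => ¬ p < 11), 1 / ((p : ℝ) * (p - 1)) ≤ 1 / 19 := by
      refine le_trans ?_ (sum_odd_le n)
      have hinj : Set.InjOn (fun p : ℕ => p / 2) (((prs n).filter (fun p => ¬ p < 11) : Finset ℕ) : Set ℕ) := by
        intro p hp p' hp' h
        rw [mem_coe, mem_filter, mem_prs] at hp hp'
        have h3 := hp.1.1.eq_two_or_odd
        have h4 := hp'.1.1.eq_two_or_odd
        simp only at h
        omega
      have h3 : ∀ p ∈ (prs n).filter (fun p => ¬ p < 11), 1 / ((p : ℝ) * (p - 1)) =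
          1 / (((2 * (p / 2) + 1 : ℕ) : ℝ) * (2 * (p / 2) : ℕ)) := by
        intro p hp
        rw [mem_filter, mem_prs] at hp
        have h3 := hp.1.1.eq_two_or_odd
        have h4 : 2 * (p / 2) + 1 = p := by omega
        have h5 : 2 * (p / 2) = p - 1 := by omega
        rw [h4, h5, Nat.cast_sub (by omega), Nat.cast_one]
      rw [sum_congr rfl h3, ← sum_image (f := fun k : ℕ => 1 / (((2 * k + 1 : ℕ) : ℝ) * (2 * k : ℕ))) hinj]
      refine sum_le_sum_of_subset_of_nonneg ?_ fun k _ _ => by positivity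
      intro k hk
      rw [mem_image] at hk
      obtain ⟨p, hp, rfl⟩ := hk
      rw [mem_filter, mem_prs] at hp
      rw [mem_Icc]
      omega
    refine h1.trans ((Real.exp_le_exp.mpr h2).trans ?_)
    have h3 := Real.exp_bound_div_one_sub_of_interval (x := 1 / 19) (by norm_num) (by norm_num)
    refine h3.trans ?_
    norm_num
  · have := hpos p (mem_prs.mp (mem_filter.mp hp).1).1.two_le
    linarith

end Pool.GDS
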