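import Pool.Agent.Helper53.GDS.Prod
import Pool.Agent.Helper29.QT.Harm

/-!
# The weights of the sieve
-/

set_option autoImplicit false

namespace Pool.GDS

open Finset ArithmeticFunction Pool.Agent.Helper29.QT

/-- `∑_{l ∣ d} 1 / φ(l) = d / φ(d)` for squarefree `d` -/
lemma sum_inv_totient {d : ℕ} (hd : Squarefree d) :
    ∑ l ∈ d.divisors, 1 / (Nat.totient l : ℝ) = d / Nat.totient d := by
  have h1 : ∀ l ∈ d.divisors, 1 / (Nat.totient l : ℝ) = ∏ p ∈ l.primeFactors, 1 / ((p : ℝ) - 1) := by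
    intro l hl
    have hl' : Squarefree l := hd.squarefree_of_dvd (Nat.dvd_of_mem_divisors hl)
    rw [totient_sqf hl', prod_div_distrib, prod_const_one]
  rw [sum_congr rfl h1]
  have h2 : ∏ p ∈ d.primeFactors, (1 + 1 / ((p : ℝ) - 1)) =
      ∑ l ∈ d.divisors, ∏ p ∈ l.primeFactors, 1 / ((p : ℝ) - 1) := by
    rw [prod_one_add]
    symm
    apply Finset.sum_bij (fun l _ => l.primeFactors)
    · intro l hl
      rw [mem_powerset]
      exact Nat.primeFactors_mono (Nat.dvd_of_mem_divisors hl) hd.ne_zero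
    · intro l hl l' hl' h
      have h3 := Nat.prod_primeFactors_of_squarefree (hd.squarefree_of_dvd (Nat.dvd_of_mem_divisors hl))
      have h4 := Nat.prod_primeFactors_of_squarefree (hd.squarefree_of_dvd (Nat.dvd_of_mem_divisors hl'))
      rw [← h3, ← h4, h]
    · intro U hU
      rw [mem_powerset] at hU
      have hpr : ∀ p ∈ U, p.Prime := fun p hp => Nat.prime_of_mem_primeFactors (hU hp)
      refine ⟨∏ p ∈ U, p, ?_, ?_⟩
      · rw [Nat.mem_divisors]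
        refine ⟨?_, hd.ne_zero⟩
        conv_rhs => rw [← Nat.prod_primeFactors_of_squarefree hd]
        exact prod_dvd_prod_of_subset _ _ _ hU
      · exact Nat.primeFactors_prod hpr
    · intro l _
      rfl
  rw [← h2, totient_sqf hd]
  conv_rhs => rw [cast_sqf hd]
  rw [← prod_div_distrib]
  refine prod_congr rfl fun p hp => ?_
  have h3 : (1 : ℝ) < p := by exact_mod_cast (Nat.prime_of_mem_primeFactors hp).one_lt
  have h4 : (p : ℝ) - 1 ≠ 0 := by linarith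
  field_simp
  ring

lemma lam_of_not_sqf {R d : ℕ} (hd : ¬ Squarefree d) : lam R d = 0 := by
  unfold lam
  have h1 : (sqf R).filter (d ∣ ·) = ∅ := by
    rw [Finset.filter_eq_empty_iff]
    intro k hk hdk
    exact hd ((mem_sqf.1 hk).2.squarefree_of_dvd hdk)
  rw [h1]
  simp

/-- the weights are bounded by one -/
lemma abs_lam_le {R d : ℕ} (hR : 1 ≤ R) : |lam R d| ≤ 1 := by
  classical
  by_cases hd : Squarefree d
  swap
  · rw [lam_of_not_sqf hd]
    norm_num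
  have hG := GG_pos hR
  have hd0 : 0 < d := Nat.pos_of_ne_zero hd.ne_zero
  have hd0' : (0 : ℝ) < d := by exact_mod_cast hd0
  set S := (sqf R).filter (d ∣ ·) with hS
  have h1 : |lam R d| ≤ (d * ∑ k ∈ S, 1 / (Nat.totient k : ℝ)) / GG R := by
    unfold lam
    rw [abs_mul, abs_div, abs_of_pos hG, abs_of_pos hd0', mul_div_assoc]
    refine mul_le_mul_of_nonneg_left (div_le_div_of_nonneg_right ?_ hG.le) hd0'.le
    refine (abs_sum_le_sum_abs _ _).trans (sum_le_sum fun k hk => ?_)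
    have h2 := tot_pos (Finset.mem_filter.1 hk).1
    rw [abs_div, abs_of_pos h2]
    apply div_le_div_of_nonneg_right _ h2.le
    rw [abs_mul]
    have h3 : |(moebius (k / d) : ℝ)| ≤ 1 := by
      have := abs_moebius_le_one (n := k / d)
      exact_mod_cast this
    have h4 : |(moebius k : ℝ)| ≤ 1 := by
      have := abs_moebius_le_one (n := k)
      exact_mod_cast this
    calc _ ≤ (1 : ℝ) * 1 := mul_le_mul h3 h4 (abs_nonneg _) zero_le_one
      _ = 1 := one_mul 1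
  refine h1.trans ?_
  rw [div_le_one hG]
  -- the multiples of `d`
  have h2 : ∀ k ∈ S, ∃ m : ℕ, k = d * m ∧ d.Coprime m ∧ Squarefree m ∧ 0 < m := by
    intro k hk
    rw [hS, mem_filter, mem_sqf] at hk
    obtain ⟨m, rfl⟩ := hk.2
    have h3 := (Nat.squarefree_mul_iff.mp hk.1.2)
    exact ⟨m, rfl, h3.1, h3.2.2, Nat.pos_of_ne_zero h3.2.2.ne_zero⟩
  have h3 : (d : ℝ) * ∑ k ∈ S, 1 / (Nat.totient k : ℝ) =
      ∑ x ∈ d.divisors ×ˢ S, 1 / (Nat.totient (x.1 * (x.2 / d)) : ℝ) := by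
    rw [sum_product, mul_sum, sum_comm]
    refine sum_congr rfl fun k hk => ?_
    obtain ⟨m, rfl, hm1, hm2, hm3⟩ := h2 k hk
    have h4 : ∀ l ∈ d.divisors, 1 / (Nat.totient (l * (d * m / d)) : ℝ) =
        1 / (Nat.totient l : ℝ) * (1 / Nat.totient m) := by
      intro l hl
      rw [Nat.mul_div_cancel_left m hd0, Nat.totient_mul (Nat.Coprime.coprime_dvd_left (Nat.dvd_of_mem_divisors hl) hm1)]
      push_cast
      rw [div_mul_div_comm, one_mul]
    rw [sum_congr rfl h4, ← sum_mul, sum_inv_totient hd, Nat.totient_mul hm1]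
    push_cast
    have h5 : (0 : ℝ) < Nat.totient d := by exact_mod_cast Nat.totient_pos.mpr hd0
    have h6 : (0 : ℝ) < Nat.totient m := by exact_mod_cast Nat.totient_pos.mpr hm3
    field_simp
  rw [h3]
  unfold GG
  have hinj : Set.InjOn (fun x : ℕ × ℕ => x.1 * (x.2 / d)) ((d.divisors ×ˢ S : Finset (ℕ × ℕ)) : Set (ℕ × ℕ)) := by
    rintro ⟨l, k⟩ hx ⟨l', k'⟩ hx' h
    rw [mem_coe, mem_product] at hx hx'
    obtain ⟨m, rfl, hm1, hm2, hm3⟩ := h2 k hx.2
    obtain ⟨m', rfl, hm1', hm2', hm3'⟩ := h2 k' hx'.2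
    simp only [Nat.mul_div_cancel_left _ hd0] at h
    have h4 : Nat.gcd d (l * m) = l := by
      rw [Nat.Coprime.gcd_mul_right_cancel_right _ hm1.symm]
      exact Nat.gcd_eq_right (Nat.dvd_of_mem_divisors hx.1)
    have h5 : Nat.gcd d (l' * m') = l' := by
      rw [Nat.Coprime.gcd_mul_right_cancel_right _ hm1'.symm]
      exact Nat.gcd_eq_right (Nat.dvd_of_mem_divisors hx'.1)
    have h6 : l = l' := by rw [← h4, ← h5, h]
    subst h6
    have hl0 : 0 < l := Nat.pos_of_mem_divisors hx.1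
    have h7 : m = m' := Nat.eq_of_mul_eq_mul_left hl0 h
    rw [h7]
  rw [← sum_image (f := fun k : ℕ => 1 / (Nat.totient k : ℝ)) hinj]
  refine sum_le_sum_of_subset_of_nonneg ?_ fun k hk _ => div_nonneg zero_le_one (tot_pos hk).le
  intro h hh
  rw [mem_image] at hh
  obtain ⟨⟨l, k⟩, hx, rfl⟩ := hh
  rw [mem_product] at hx
  obtain ⟨m, rfl, hm1, hm2, hm3⟩ := h2 k hx.2
  have hk := (mem_sqf.mp (mem_filter.mp hx.2).1)
  have hl := Nat.dvd_of_mem_divisors hx.1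
  have hl0 : 0 < l := Nat.pos_of_mem_divisors hx.1
  simp only [Nat.mul_div_cancel_left _ hd0]
  rw [mem_sqf]
  refine ⟨⟨Nat.mul_pos hl0 hm3, ?_⟩, ?_⟩
  · exact (Nat.mul_le_mul_right m (Nat.le_of_dvd hd0 hl)).trans hk.1.2
  · exact (Nat.squarefree_mul_iff).mpr ⟨Nat.Coprime.coprime_dvd_left hl hm1, hd.squarefree_of_dvd hl, hm2⟩

section twisted

variable {q : ℕ}

/-- `d` without the prime factor `q` -/
def rmv (q d : ℕ) : ℕ := if q ∣ d then d / q else d

lemma rmv_dvd {d : ℕ} : rmv q d ∣ d := by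
  unfold rmv
  split_ifs with h
  · exact Nat.div_dvd_of_dvd h
  · exact dvd_refl d

lemma dvd_mul_rmv {d : ℕ} : d ∣ q * rmv q d := by
  unfold rmv
  split_ifs with h
  · rw [Nat.mul_div_cancel' h]
  · exact dvd_mul_left _ _

lemma not_dvd_rmv {d : ℕ} (hq : q.Prime) (hd : Squarefree d) : ¬ q ∣ rmv q d := by
  unfold rmv
  split_ifs with h
  · intro h1
    obtain ⟨m, rfl⟩ := h
    rw [Nat.mul_div_cancel_left _ hq.pos] at h1
    have h2 : q * q ∣ q * m := Nat.mul_dvd_mul_left q h1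
    exact hq.one_lt.ne' (Nat.isUnit_iff.mp (hd q h2))
  · exact h

lemma dvd_rmv_iff {d k : ℕ} (hq : q.Prime) (hd : Squarefree d) : k ∣ rmv q d ↔ (k ∣ d ∧ ¬ q ∣ k) := by
  constructor
  · intro h
    exact ⟨h.trans rmv_dvd, fun h1 => not_dvd_rmv hq hd (h1.trans h)⟩
  · rintro ⟨h1, h2⟩
    have h3 : Nat.Coprime k q := (Nat.coprime_comm.mp ((Nat.Prime.coprime_iff_not_dvd hq).mpr h2))
    exact h3.dvd_of_dvd_mul_left (h1.trans dvd_mul_rmv)

lemma lcm_rmv {d e : ℕ} (hq : q.Prime) (hd : Squarefree d) (he : Squarefree e) :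
    Nat.lcm (Nat.lcm d e) q = q * Nat.lcm (rmv q d) (rmv q e) := by
  apply Nat.dvd_antisymm
  · refine Nat.lcm_dvd (Nat.lcm_dvd ?_ ?_) (dvd_mul_right _ _)
    · exact dvd_mul_rmv.trans (Nat.mul_dvd_mul_left q (Nat.dvd_lcm_left _ _))
    · exact dvd_mul_rmv.trans (Nat.mul_dvd_mul_left q (Nat.dvd_lcm_right _ _))
  · have h1 : ¬ q ∣ Nat.lcm (rmv q d) (rmv q e) := by
      intro h
      have h2 : q ∣ rmv q d * rmv q e := h.trans (Nat.lcm_dvd_mul _ _)
      rcases (Nat.Prime.dvd_mul hq).mp h2 with h3 | h3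
      · exact not_dvd_rmv hq hd h3
      · exact not_dvd_rmv hq he h3
    refine Nat.Coprime.mul_dvd_of_dvd_of_dvd ((Nat.Prime.coprime_iff_not_dvd hq).mpr h1) (Nat.dvd_lcm_right _ _) ?_
    exact Nat.lcm_dvd (rmv_dvd.trans ((Nat.dvd_lcm_left d e).trans (Nat.dvd_lcm_left _ _)))
      (rmv_dvd.trans ((Nat.dvd_lcm_right d e).trans (Nat.dvd_lcm_left _ _)))

lemma inv_lcm {R d e : ℕ} (hq : q.Prime) (hd : d ∈ sqf R) (he : e ∈ sqf R) :
    1 / (Nat.lcm (Nat.lcm d e) q : ℝ) = 1 / q * ∑ k ∈ (Icc 1 R).filter (fun k => ¬ q ∣ k),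
      (Nat.totient k : ℝ) * ((if k ∣ d then 1 / (rmv q d : ℝ) else 0) * (if k ∣ e then 1 / (rmv q e : ℝ) else 0)) := by
  rw [mem_sqf] at hd he
  have hd0 : 0 < rmv q d := Nat.pos_of_dvd_of_pos rmv_dvd hd.1.1
  have he0 : 0 < rmv q e := Nat.pos_of_dvd_of_pos rmv_dvd he.1.1
  have hd0' : (rmv q d : ℝ) ≠ 0 := by exact_mod_cast hd0.ne'
  have he0' : (rmv q e : ℝ) ≠ 0 := by exact_mod_cast he0.ne'
  have hg0 : 0 < Nat.gcd (rmv q d) (rmv q e) := Nat.gcd_pos_of_pos_left _ hd0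
  have h2 : ((Nat.gcd (rmv q d) (rmv q e) : ℕ) : ℝ) * (Nat.lcm (rmv q d) (rmv q e) : ℝ) =
      (rmv q d : ℝ) * (rmv q e : ℝ) := by
    exact_mod_cast Nat.gcd_mul_lcm (rmv q d) (rmv q e)
  have hl0 : (Nat.lcm (rmv q d) (rmv q e) : ℝ) ≠ 0 := by
    intro h0
    rw [h0, mul_zero] at h2
    exact mul_ne_zero hd0' he0' h2.symm
  have h3 : ((Nat.gcd (rmv q d) (rmv q e) : ℕ) : ℝ) = ∑ k ∈ (Icc 1 R).filter (fun k => ¬ q ∣ k),
      (Nat.totient k : ℝ) * ((if k ∣ d then 1 else 0) * (if k ∣ e then 1 else 0)) := by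
    have h4 : (Nat.gcd (rmv q d) (rmv q e)).divisors =
        ((Icc 1 R).filter (fun k => ¬ q ∣ k)).filter fun k => k ∣ d ∧ k ∣ e := by
      ext k
      rw [Nat.mem_divisors, Finset.mem_filter, Finset.mem_filter, Finset.mem_Icc, Nat.dvd_gcd_iff,
        dvd_rmv_iff hq hd.2, dvd_rmv_iff hq he.2]
      constructor
      · rintro ⟨⟨⟨h5, h6⟩, h7, _⟩, _⟩
        exact ⟨⟨⟨Nat.pos_of_dvd_of_pos h5 hd.1.1, (Nat.le_of_dvd hd.1.1 h5).trans hd.1.2⟩, h6⟩, h5, h7⟩
      · rintro ⟨⟨_, h6⟩, h5, h7⟩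
        exact ⟨⟨⟨h5, h6⟩, h7, h6⟩, hg0.ne'⟩
    conv_lhs => rw [← Nat.sum_totient (Nat.gcd (rmv q d) (rmv q e))]
    rw [h4, Finset.sum_filter]
    push_cast
    refine Finset.sum_congr rfl fun k _ => ?_
    by_cases h5 : k ∣ d <;> by_cases h6 : k ∣ e <;> simp [h5, h6]
  have h5 : ∑ k ∈ (Icc 1 R).filter (fun k => ¬ q ∣ k),
      (Nat.totient k : ℝ) * ((if k ∣ d then 1 / (rmv q d : ℝ) else 0) * (if k ∣ e then 1 / (rmv q e : ℝ) else 0)) =
      (1 / (rmv q d : ℝ)) * (1 / (rmv q e : ℝ)) * ((Nat.gcd (rmv q d) (rmv q e) : ℕ) : ℝ) := by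
    rw [h3, mul_sum]
    refine sum_congr rfl fun k _ => ?_
    by_cases h5 : k ∣ d <;> by_cases h6 : k ∣ e <;> simp [h5, h6]
    ring
  rw [h5, lcm_rmv hq hd.2 he.2]
  have hq0 : (q : ℝ) ≠ 0 := by exact_mod_cast hq.ne_zero
  push_cast
  field_simp
  linarith

lemma sum_lam_rmv {R k : ℕ} (hq : q.Prime) (hk : 1 ≤ k) (hqk : ¬ q ∣ k) :
    ∑ d ∈ (Icc 1 R).filter (k ∣ ·), lam R d * (1 / (rmv q d : ℝ)) =
      if k ∈ sqf R ∧ R < k * q then (moebius k : ℝ) / Nat.totient k / GG R else 0 := by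
  have hq1 : (1 : ℝ) < q := by exact_mod_cast hq.one_lt
  have hcop : Nat.Coprime k q := Nat.coprime_comm.mp ((Nat.Prime.coprime_iff_not_dvd hq).mpr hqk)
  have h1 : ∀ d ∈ (Icc 1 R).filter (k ∣ ·), lam R d * (1 / (rmv q d : ℝ)) =
      lam R d / d + (q - 1) * (if q ∣ d then lam R d / d else 0) := by
    intro d hd
    have hd0 : (d : ℝ) ≠ 0 := by
      have := (Finset.mem_Icc.1 (Finset.mem_filter.1 hd).1).1
      exact_mod_cast (by omega : d ≠ 0)
    unfold rmv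
    split_ifs with h
    · have h2 : ((d / q : ℕ) : ℝ) = d / q := Nat.cast_div h (by positivity)
      rw [h2]
      have hq0 : (q : ℝ) ≠ 0 := by positivity
      field_simp
      ring
    · rw [mul_zero, add_zero]
      ring
  rw [sum_congr rfl h1, sum_add_distrib, sum_lam hk, ← mul_sum, ← sum_filter]
  have h2 : ((Icc 1 R).filter (k ∣ ·)).filter (fun d => q ∣ d) = (Icc 1 R).filter (k * q ∣ ·) := by
    ext d
    simp only [mem_filter]
    constructor
    · rintro ⟨⟨h3, h4⟩, h5⟩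
      exact ⟨h3, hcop.mul_dvd_of_dvd_of_dvd h4 h5⟩
    · rintro ⟨h3, h4⟩
      exact ⟨⟨h3, (dvd_mul_right _ _).trans h4⟩, (dvd_mul_left _ _).trans h4⟩
  rw [h2, sum_lam (Nat.mul_pos hk hq.pos)]
  have h3 : k * q ∈ sqf R ↔ (k ∈ sqf R ∧ ¬ R < k * q) := by
    rw [mem_sqf, mem_sqf, Nat.squarefree_mul_iff]
    have hkq : k ≤ k * q := Nat.le_mul_of_pos_right _ hq.pos
    constructor
    · rintro ⟨⟨h4, h5⟩, _, h6, _⟩
      exact ⟨⟨⟨hk, by omega⟩, h6⟩, by omega⟩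
    · rintro ⟨⟨⟨h4, h5⟩, h6⟩, h7⟩
      exact ⟨⟨by omega, by omega⟩, hcop, h6, hq.squarefree⟩
  by_cases hks : k ∈ sqf R
  · by_cases hR : R < k * q
    · rw [if_pos hks, if_neg (by rw [h3]; tauto), if_pos ⟨hks, hR⟩]
      ring
    · rw [if_pos hks, if_pos (by rw [h3]; tauto), if_neg (by tauto), Nat.totient_mul hcop,
        isMultiplicative_moebius.map_mul_of_coprime hcop, moebius_apply_prime hq, Nat.totient_prime hq]
      have h4 := tot_pos hks
      have h5 : (q : ℝ) - 1 ≠ 0 := by linarith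
      push_cast [Nat.cast_sub hq.one_lt.le]
      field_simp
      ring
  · rw [if_neg hks, if_neg (by rw [h3]; tauto), if_neg (by tauto)]
    ring

/-- the main term of the twisted sum -/
lemma twisted {R : ℕ} (hR : 1 ≤ R) (hq : q.Prime) :
    ∑ d ∈ sqf R, ∑ e ∈ sqf R, lam R d * lam R e / (Nat.lcm (Nat.lcm d e) q : ℝ) =
      1 / q * (∑ k ∈ (sqf R).filter (fun k => ¬ q ∣ k ∧ R < k * q), 1 / (Nat.totient k : ℝ)) / GG R ^ 2 := by
  have hG := GG_pos hR
  have hsub : ∀ f : ℕ → ℝ, ∑ d ∈ sqf R, lam R d * f d = ∑ d ∈ Icc 1 R, lam R d * f d := by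
    intro f
    unfold sqf
    rw [sum_filter]
    refine sum_congr rfl fun d _ => ?_
    split_ifs with h
    · rfl
    · rw [lam_of_not_sqf h, zero_mul]
  have h1 : ∀ d ∈ sqf R, ∀ e ∈ sqf R, lam R d * lam R e / (Nat.lcm (Nat.lcm d e) q : ℝ) =
      1 / q * ∑ k ∈ (Icc 1 R).filter (fun k => ¬ q ∣ k), (Nat.totient k : ℝ) *
        ((lam R d * if k ∣ d then 1 / (rmv q d : ℝ) else 0) * (lam R e * if k ∣ e then 1 / (rmv q e : ℝ) else 0)) := by
    intro d hd e he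
    rw [div_eq_mul_one_div, inv_lcm hq hd he, mul_left_comm, mul_sum]
    congr 1
    refine sum_congr rfl fun k _ => ?_
    ring
  rw [sum_congr rfl fun d hd => sum_congr rfl fun e he => h1 d hd e he]
  simp_rw [← mul_sum]
  rw [mul_div_assoc]
  congr 1
  rw [sum_congr rfl fun d _ => sum_comm, sum_comm]
  have h2 : ∀ k ∈ (Icc 1 R).filter (fun k => ¬ q ∣ k),
      ∑ d ∈ sqf R, ∑ e ∈ sqf R, (Nat.totient k : ℝ) *
        ((lam R d * if k ∣ d then 1 / (rmv q d : ℝ) else 0) * (lam R e * if k ∣ e then 1 / (rmv q e : ℝ) else 0)) =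
      if k ∈ sqf R ∧ R < k * q then 1 / (Nat.totient k : ℝ) / GG R ^ 2 else 0 := by
    intro k hk
    rw [mem_filter, mem_Icc] at hk
    simp_rw [← mul_sum, ← sum_mul]
    rw [hsub fun d => if k ∣ d then 1 / (rmv q d : ℝ) else 0]
    have h3 : ∑ d ∈ Icc 1 R, lam R d * (if k ∣ d then 1 / (rmv q d : ℝ) else 0) =
        ∑ d ∈ (Icc 1 R).filter (k ∣ ·), lam R d * (1 / (rmv q d : ℝ)) := by
      rw [sum_filter]
      refine sum_congr rfl fun d _ => ?_
      split_ifs <;> ring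
    rw [h3, sum_lam_rmv hq hk.1.1 hk.2]
    split_ifs with h4
    · have h5 := tot_pos h4.1
      have h6 := mu_sq h4.1
      field_simp
      rw [sq, h6]
    · ring
  rw [sum_congr rfl h2, ← sum_filter]
  have h3 : ((Icc 1 R).filter (fun k => ¬ q ∣ k)).filter (fun k => k ∈ sqf R ∧ R < k * q) =
      (sqf R).filter (fun k => ¬ q ∣ k ∧ R < k * q) := by
    ext k
    simp only [mem_filter]
    constructor
    · rintro ⟨⟨_, h4⟩, h5, h6⟩
      exact ⟨h5, h4, h6⟩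
    · rintro ⟨h5, h4, h6⟩
      exact ⟨⟨(mem_filter.mp h5).1, h4⟩, h5, h6⟩
  rw [h3, sum_div]

end twisted

end Pool.GDS
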