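import Pool.Agent.Helper53.GDS.Weights

/-!
# The sums over pairs of indices
-/

set_option autoImplicit false

namespace Pool.GDS

open Finset Pool.Agent.Helper29.QT

/-- the least common multiple of the divisors of two indices -/
def LL (x : (ℕ × ℕ × ℕ) × (ℕ × ℕ × ℕ)) : ℕ := Nat.lcm (DD x.1) (DD x.2)

lemma lcm_sqf {a b : ℕ} (ha : Squarefree a) (hb : Squarefree b) : Squarefree (Nat.lcm a b) := by
  rw [Nat.squarefree_iff_prime_squarefree]
  intro p hp h
  have ha0 := ha.ne_zero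
  have hb0 := hb.ne_zero
  have h1 : 2 ≤ (Nat.lcm a b).factorization p := by
    rw [← hp.pow_dvd_iff_le_factorization (Nat.lcm_ne_zero ha0 hb0), sq]
    exact h
  rw [Nat.factorization_lcm ha0 hb0, Finsupp.sup_apply] at h1
  have h2 := ha.natFactorization_le_one p
  have h3 := hb.natFactorization_le_one p
  have h4 := max_le h2 h3
  exact absurd (h1.trans h4) (by norm_num)

lemma mem_TT {R z : ℕ} {t : ℕ × ℕ × ℕ} (ht : t ∈ TT R z) :
    t.1 ∈ sqf R ∧ t.2.1 ∈ sqf R ∧ (t.2.2 = 1 ∨ t.2.2 ∈ prs z) := by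
  unfold TT at ht
  rw [mem_product, mem_product, mem_insert] at ht
  exact ht

lemma DD_good {R z : ℕ} (hzR : z ≤ R) {t : ℕ × ℕ × ℕ} (ht : t ∈ TT R z) :
    Squarefree (DD t) ∧ (DD t).primeFactors ⊆ prs R := by
  obtain ⟨h1, h2, h3⟩ := mem_TT ht
  have h1' := mem_sqf.mp h1
  have h2' := mem_sqf.mp h2
  have h3' : Squarefree t.2.2 := by
    rcases h3 with h | h
    · rw [h]
      exact squarefree_one
    · exact (mem_prs.mp h).1.squarefree
  refine ⟨lcm_sqf (lcm_sqf h1'.2 h2'.2) h3', fun p hp => ?_⟩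
  have hpp := Nat.prime_of_mem_primeFactors hp
  have hpd := Nat.dvd_of_mem_primeFactors hp
  rw [mem_prs]
  refine ⟨hpp, ?_⟩
  unfold DD at hpd
  have h4 : p ∣ t.1 ∨ p ∣ t.2.1 ∨ p ∣ t.2.2 := by
    rcases (Nat.Prime.dvd_mul hpp).mp (hpd.trans (Nat.lcm_dvd_mul _ _)) with h | h
    · rcases (Nat.Prime.dvd_mul hpp).mp (h.trans (Nat.lcm_dvd_mul _ _)) with h | h
      · exact Or.inl h
      · exact Or.inr (Or.inl h)
    · exact Or.inr (Or.inr h)
  rcases h4 with h | h | h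
  · exact (Nat.le_of_dvd h1'.1.1 h).trans h1'.1.2
  · exact (Nat.le_of_dvd h2'.1.1 h).trans h2'.1.2
  · rcases h3 with h3 | h3
    · rw [h3] at h
      exact absurd (Nat.dvd_one.mp h) hpp.one_lt.ne'
    · have := (Nat.prime_dvd_prime_iff_eq hpp (mem_prs.mp h3).1).mp h
      rw [this]
      exact (mem_prs.mp h3).2.trans hzR

lemma DD_pos {R z : ℕ} (hzR : z ≤ R) {t : ℕ × ℕ × ℕ} (ht : t ∈ TT R z) : 0 < DD t :=
  Nat.pos_of_ne_zero (DD_good hzR ht).1.ne_zero

lemma LL_good {R z : ℕ} (hzR : z ≤ R) {x : (ℕ × ℕ × ℕ) × (ℕ × ℕ × ℕ)} (hx : x ∈ TT R z ×ˢ TT R z) :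
    Squarefree (LL x) ∧ (LL x).primeFactors ⊆ prs R := by
  rw [mem_product] at hx
  obtain ⟨h1, h2⟩ := DD_good hzR hx.1
  obtain ⟨h3, h4⟩ := DD_good hzR hx.2
  refine ⟨lcm_sqf h1 h3, fun p hp => ?_⟩
  have hpp := Nat.prime_of_mem_primeFactors hp
  have hpd := Nat.dvd_of_mem_primeFactors hp
  rcases (Nat.Prime.dvd_mul hpp).mp (hpd.trans (Nat.lcm_dvd_mul _ _)) with h | h
  · exact h2 (Nat.mem_primeFactors.mpr ⟨hpp, h, h1.ne_zero⟩)
  · exact h4 (Nat.mem_primeFactors.mpr ⟨hpp, h, h3.ne_zero⟩)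

lemma card_divisors_sqf {n : ℕ} (hn : Squarefree n) : n.divisors.card = 2 ^ n.primeFactors.card := by
  rw [Nat.card_divisors hn.ne_zero]
  have : ∀ p ∈ n.primeFactors, n.factorization p + 1 = 2 := by
    intro p hp
    have h1 := hn.natFactorization_le_one p
    have h2 : 0 < n.factorization p := (Nat.prime_of_mem_primeFactors hp).factorization_pos_of_dvd hn.ne_zero
      (Nat.dvd_of_mem_primeFactors hp)
    omega
  rw [prod_congr rfl this, prod_const]

/-- the number of pairs with a given least common multiple -/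
lemma card_fibre {R z L : ℕ} (hL : Squarefree L) :
    (((TT R z ×ˢ TT R z).filter (fun x => LL x = L)).card : ℝ) ≤ ∏ _p ∈ L.primeFactors, (64 : ℝ) := by
  classical
  set dv := L.divisors with hdv
  have h1 : (TT R z ×ˢ TT R z).filter (fun x => LL x = L) ⊆
      (dv ×ˢ (dv ×ˢ dv)) ×ˢ (dv ×ˢ (dv ×ˢ dv)) := by
    rintro x hx
    rw [mem_filter] at hx
    have hx1 : DD x.1 ∣ L := by
      rw [← hx.2]
      exact Nat.dvd_lcm_left _ _
    have hx2 : DD x.2 ∣ L := by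
      rw [← hx.2]
      exact Nat.dvd_lcm_right _ _
    have hd : ∀ t : ℕ × ℕ × ℕ, DD t ∣ L → t ∈ dv ×ˢ (dv ×ˢ dv) := by
      intro t ht
      rw [mem_product, mem_product, hdv, Nat.mem_divisors, Nat.mem_divisors, Nat.mem_divisors]
      refine ⟨⟨?_, hL.ne_zero⟩, ⟨?_, hL.ne_zero⟩, ⟨?_, hL.ne_zero⟩⟩
      · exact ((Nat.dvd_lcm_left t.1 t.2.1).trans (Nat.dvd_lcm_left _ _)).trans ht
      · exact ((Nat.dvd_lcm_right t.1 t.2.1).trans (Nat.dvd_lcm_left _ _)).trans ht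
      · exact (Nat.dvd_lcm_right _ _).trans ht
    rw [mem_product]
    exact ⟨hd _ hx1, hd _ hx2⟩
  have h2 := card_le_card h1
  rw [card_product, card_product, card_product, card_divisors_sqf hL] at h2
  have h3 : (((TT R z ×ˢ TT R z).filter (fun x => LL x = L)).card : ℝ) ≤
      ((2 ^ L.primeFactors.card * (2 ^ L.primeFactors.card * 2 ^ L.primeFactors.card) *
        (2 ^ L.primeFactors.card * (2 ^ L.primeFactors.card * 2 ^ L.primeFactors.card)) : ℕ) : ℝ) := by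
    exact_mod_cast h2
  refine h3.trans (le_of_eq ?_)
  rw [prod_const]
  push_cast
  rw [show (64 : ℝ) = 2 ^ 6 by norm_num, ← pow_mul]
  ring

/-- the sum over pairs of a multiplicative function of the least common multiple -/
lemma pair_sum {R z : ℕ} (hzR : z ≤ R) (f : ℕ → ℝ) (hf : ∀ p, 0 ≤ f p) :
    ∑ x ∈ TT R z ×ˢ TT R z, ∏ p ∈ (LL x).primeFactors, f p ≤ ∏ p ∈ prs R, (1 + 64 * f p) := by
  classical
  have h1 : ∀ x ∈ TT R z ×ˢ TT R z, LL x ∈ (TT R z ×ˢ TT R z).image LL := fun x hx => mem_image_of_mem _ hx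
  rw [← sum_fiberwise_of_maps_to h1]
  have h2 : ∀ L ∈ (TT R z ×ˢ TT R z).image LL,
      ∑ x ∈ (TT R z ×ˢ TT R z).filter (fun x => LL x = L), ∏ p ∈ (LL x).primeFactors, f p ≤
        ∏ p ∈ L.primeFactors, (64 * f p) := by
    intro L hL
    rw [mem_image] at hL
    obtain ⟨y, hy, rfl⟩ := hL
    have h3 : ∀ x ∈ (TT R z ×ˢ TT R z).filter (fun x => LL x = LL y),
        ∏ p ∈ (LL x).primeFactors, f p = ∏ p ∈ (LL y).primeFactors, f p := by
      intro x hx
      rw [(mem_filter.mp hx).2]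
    rw [sum_congr rfl h3, sum_const, nsmul_eq_mul, prod_mul_distrib]
    exact mul_le_mul_of_nonneg_right (card_fibre (LL_good hzR hy).1) (prod_nonneg fun p _ => hf p)
  refine (sum_le_sum h2).trans ?_
  refine sum_sqf_le _ (prs R) ?_ _ fun p => mul_nonneg (by norm_num) (hf p)
  intro L hL
  rw [mem_image] at hL
  obtain ⟨y, hy, rfl⟩ := hL
  exact LL_good hzR hy

/-- the product that bounds the sums over pairs -/
noncomputable def PP (R : ℕ) : ℝ := ∏ p ∈ prs R, (1 + 64 / (p : ℝ))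

lemma one_le_PP (R : ℕ) : 1 ≤ PP R :=
  Finset.one_le_prod fun p _ => by
    have : (0 : ℝ) ≤ 64 / (p : ℝ) := by positivity
    linarith

lemma pair_sum_one {R z : ℕ} (hzR : z ≤ R) :
    ∑ x ∈ TT R z ×ˢ TT R z, 1 / (LL x : ℝ) ≤ PP R := by
  have h1 : ∀ x ∈ TT R z ×ˢ TT R z, 1 / (LL x : ℝ) = ∏ p ∈ (LL x).primeFactors, 1 / (p : ℝ) := by
    intro x hx
    conv_lhs => rw [cast_sqf (LL_good hzR hx).1]
    rw [prod_div_distrib, prod_const_one]
  rw [sum_congr rfl h1]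
  refine (pair_sum hzR (fun p => 1 / (p : ℝ)) fun p => by positivity).trans (le_of_eq ?_)
  unfold PP
  exact prod_congr rfl fun p _ => by rw [mul_one_div]

lemma gcd_eq_prod {p L : ℕ} (hp : p.Prime) (hL : L ≠ 0) :
    (Nat.gcd p L : ℝ) = ∏ r ∈ L.primeFactors, (if r = p then (p : ℝ) else 1) := by
  rw [prod_ite_eq']
  by_cases h : p ∣ L
  · rw [if_pos (Nat.mem_primeFactors.mpr ⟨hp, h, hL⟩), Nat.gcd_eq_left h]
  · rw [if_neg (fun h1 => h (Nat.dvd_of_mem_primeFactors h1)), (Nat.Prime.coprime_iff_not_dvd hp).mpr h,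
      Nat.cast_one]

lemma pair_sum_two {R z p p' : ℕ} (hzR : z ≤ R) (hp : p.Prime) (hp' : p'.Prime) (hpp : p ≠ p') :
    ∑ x ∈ TT R z ×ˢ TT R z, (Nat.gcd p (LL x) : ℝ) * Nat.gcd p' (LL x) / (LL x : ℝ) ≤ 65 ^ 2 * PP R := by
  classical
  have hp1 : (1 : ℝ) ≤ p := by exact_mod_cast hp.one_lt.le
  have hp1' : (1 : ℝ) ≤ p' := by exact_mod_cast hp'.one_lt.le
  set f : ℕ → ℝ := fun r => (if r = p then (p : ℝ) else 1) * (if r = p' then (p' : ℝ) else 1) / r with hf
  have hf0 : ∀ r, 0 ≤ f r := by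
    intro r
    simp only [hf]
    split_ifs <;> positivity
  have h1 : ∀ x ∈ TT R z ×ˢ TT R z, (Nat.gcd p (LL x) : ℝ) * Nat.gcd p' (LL x) / (LL x : ℝ) =
      ∏ r ∈ (LL x).primeFactors, f r := by
    intro x hx
    have h2 := (LL_good hzR hx).1
    rw [gcd_eq_prod hp h2.ne_zero, gcd_eq_prod hp' h2.ne_zero]
    conv_lhs =>
      rw [cast_sqf h2]
    rw [← prod_mul_distrib, ← prod_div_distrib]
  rw [sum_congr rfl h1]
  refine (pair_sum hzR f hf0).trans ?_
  have h3 : ∀ r ∈ prs R, 1 + 64 * f r ≤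
      ((if r = p then (65 : ℝ) else 1) * (if r = p' then (65 : ℝ) else 1)) * (1 + 64 / (r : ℝ)) := by
    intro r hr
    have hr0 : (0 : ℝ) < r := by exact_mod_cast (mem_prs.mp hr).1.pos
    have hr1 : (0 : ℝ) ≤ 64 / (r : ℝ) := by positivity
    simp only [hf]
    by_cases h4 : r = p
    · have h5 : r ≠ p' := fun h => hpp (h4.symm.trans h)
      rw [if_pos h4, if_neg h5, if_pos h4, if_neg h5, ← h4, mul_one, div_self hr0.ne']
      nlinarith
    · by_cases h5 : r = p'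
      · rw [if_neg h4, if_pos h5, if_neg h4, if_pos h5, ← h5, one_mul, div_self hr0.ne']
        nlinarith
      · rw [if_neg h4, if_neg h5, if_neg h4, if_neg h5]
        apply le_of_eq
        ring
  refine (prod_le_prod (fun r _ => ?_) h3).trans ?_
  · have := hf0 r
    linarith
  · rw [prod_mul_distrib, prod_mul_distrib, prod_ite_eq', prod_ite_eq']
    unfold PP
    refine mul_le_mul_of_nonneg_right ?_ (prod_nonneg fun r _ => by positivity)
    split_ifs <;> norm_num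

/-- the key inequality for the least common multiples -/
lemma term_le {p p' D D' : ℕ} (hp : p.Prime) (hp' : p'.Prime) (hpp : p ≠ p') (hD : 0 < D) (hD' : 0 < D') :
    (p : ℝ) / (Nat.lcm (p * D) (p' * D') : ℕ) ≤
      1 / p' * ((Nat.gcd p (Nat.lcm D D') : ℝ) * Nat.gcd p' (Nat.lcm D D') / (Nat.lcm D D' : ℕ)) := by
  set L := Nat.lcm D D' with hL
  set M := Nat.lcm (p * D) (p' * D') with hM
  have hLpos : 0 < L := Nat.lcm_pos hD hD'
  have hMpos : 0 < M := Nat.lcm_pos (Nat.mul_pos hp.pos hD) (Nat.mul_pos hp'.pos hD')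
  have hcop : Nat.Coprime p p' := (Nat.coprime_primes hp hp').mpr hpp
  have h1 : L ∣ M := Nat.lcm_dvd ((dvd_mul_left D p).trans (Nat.dvd_lcm_left _ _))
    ((dvd_mul_left D' p').trans (Nat.dvd_lcm_right _ _))
  have h2 : p * p' ∣ M := hcop.mul_dvd_of_dvd_of_dvd ((dvd_mul_right p D).trans (Nat.dvd_lcm_left _ _))
    ((dvd_mul_right p' D').trans (Nat.dvd_lcm_right _ _))
  have h3 : Nat.lcm (p * p') L ∣ M := Nat.lcm_dvd h2 h1
  have h4 : Nat.gcd (p * p') L * Nat.lcm (p * p') L = p * p' * L := Nat.gcd_mul_lcm _ _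
  have h5 : Nat.gcd (p * p') L = Nat.gcd p L * Nat.gcd p' L := by
    rw [Nat.gcd_comm, Nat.Coprime.gcd_mul L hcop, Nat.gcd_comm L p, Nat.gcd_comm L p']
  have h6 : p * p' * L ≤ Nat.gcd p L * Nat.gcd p' L * M := by
    rw [← h4, h5]
    exact Nat.mul_le_mul_left _ (Nat.le_of_dvd hMpos h3)
  have h7 : (p : ℝ) * p' * L ≤ (Nat.gcd p L : ℝ) * Nat.gcd p' L * M := by exact_mod_cast h6
  have hp0 : (0 : ℝ) < p := by exact_mod_cast hp.pos
  have hp0' : (0 : ℝ) < p' := by exact_mod_cast hp'.pos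
  have hL0 : (0 : ℝ) < L := by exact_mod_cast hLpos
  have hM0 : (0 : ℝ) < M := by exact_mod_cast hMpos
  rw [one_div, inv_mul_eq_div, div_div, div_le_div_iff₀ hM0 (by positivity)]
  calc (p : ℝ) * (L * p') = p * p' * L := by ring
    _ ≤ _ := h7

end Pool.GDS
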