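import Pool.Agent.Helper53.GDS.Mean
import Pool.Agent.Helper53.GDS.Cnt
import Pool.Agent.Helper53.GDS.Crit

/-!
# The weights
-/

set_option autoImplicit false

namespace Pool.GDS

open Finset ArithmeticFunction Pool.Agent.Helper29.QT

/-- the index set of the weights -/
def TT (R z : ℕ) : Finset (ℕ × ℕ × ℕ) := sqf R ×ˢ (sqf R ×ˢ (insert 1 (prs z)))

/-- the divisor attached to an index -/
def DD (t : ℕ × ℕ × ℕ) : ℕ := Nat.lcm (Nat.lcm t.1 t.2.1) t.2.2

/-- the coefficients -/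
noncomputable def cc (R : ℕ) (t : ℕ × ℕ × ℕ) : ℝ := lam R t.1 * lam R t.2.1 * (if t.2.2 = 1 then 1 else -1)

lemma one_notMem_prs {z : ℕ} : 1 ∉ prs z := fun h => Nat.not_prime_one (mem_prs.mp h).1

lemma abs_cc_le {R : ℕ} (hR : 1 ≤ R) (t : ℕ × ℕ × ℕ) : |cc R t| ≤ 1 := by
  unfold cc
  rw [abs_mul, abs_mul]
  have h1 := abs_lam_le (d := t.1) hR
  have h2 := abs_lam_le (d := t.2.1) hR
  have h3 : |(if t.2.2 = 1 then (1 : ℝ) else -1)| = 1 := by
    split_ifs <;> simp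
  rw [h3, mul_one]
  calc _ ≤ (1 : ℝ) * 1 := mul_le_mul h1 h2 (abs_nonneg _) zero_le_one
    _ = 1 := one_mul 1

lemma sum_TT (R z : ℕ) (f : ℕ → ℕ → ℕ → ℝ) :
    ∑ t ∈ TT R z, lam R t.1 * lam R t.2.1 * (if t.2.2 = 1 then 1 else -1) * f t.1 t.2.1 t.2.2 =
      ∑ d ∈ sqf R, ∑ e ∈ sqf R, lam R d * lam R e * f d e 1 -
        ∑ q ∈ prs z, ∑ d ∈ sqf R, ∑ e ∈ sqf R, lam R d * lam R e * f d e q := by
  unfold TT
  rw [sum_product]
  simp_rw [sum_product, sum_insert one_notMem_prs]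
  have h1 : ∀ d ∈ sqf R, ∀ e ∈ sqf R,
      (lam R d * lam R e * (if True then 1 else -1) * f d e 1 +
        ∑ q ∈ prs z, lam R d * lam R e * (if q = 1 then 1 else -1) * f d e q) =
      lam R d * lam R e * f d e 1 - ∑ q ∈ prs z, lam R d * lam R e * f d e q := by
    intro d _ e _
    rw [if_pos trivial, mul_one, sub_eq_add_neg, ← sum_neg_distrib]
    congr 1
    refine sum_congr rfl fun q hq => ?_
    rw [if_neg (fun h => by
      subst h
      exact one_notMem_prs hq)]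
    ring
  rw [sum_congr rfl fun d hd => sum_congr rfl fun e he => h1 d hd e he]
  simp_rw [sum_sub_distrib]
  congr 1
  rw [sum_congr rfl fun d _ => sum_comm, sum_comm]

/-- the mean value -/
lemma sum_cc_div (R z : ℕ) : ∑ t ∈ TT R z, cc R t * (1 / (DD t : ℝ)) = mu R z := by
  unfold cc DD mu
  rw [sum_TT R z fun d e q => 1 / (Nat.lcm (Nat.lcm d e) q : ℝ)]
  simp only [Nat.lcm_one_right, mul_one_div]

/-- the weights are not positive on the numbers with a small prime factor -/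
lemma weight_nonpos {R z l : ℕ} (h : ∃ q ∈ prs z, q ∣ l) :
    ∑ t ∈ TT R z, cc R t * (if DD t ∣ l then 1 else 0) ≤ 0 := by
  have h1 : ∀ t ∈ TT R z, cc R t * (if DD t ∣ l then (1 : ℝ) else 0) =
      lam R t.1 * lam R t.2.1 * (if t.2.2 = 1 then 1 else -1) *
        ((if t.1 ∣ l then 1 else 0) * (if t.2.1 ∣ l then 1 else 0) * (if t.2.2 ∣ l then 1 else 0)) := by
    intro t _
    unfold cc DD
    congr 1
    have hiff : Nat.lcm (Nat.lcm t.1 t.2.1) t.2.2 ∣ l ↔ (t.1 ∣ l ∧ t.2.1 ∣ l) ∧ t.2.2 ∣ l := by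
      rw [Nat.lcm_dvd_iff, Nat.lcm_dvd_iff]
    by_cases h1 : t.1 ∣ l <;> by_cases h2 : t.2.1 ∣ l <;> by_cases h3 : t.2.2 ∣ l <;>
      simp [hiff, h1, h2, h3]
  rw [sum_congr rfl h1, sum_TT R z fun d e q =>
    (if d ∣ l then 1 else 0) * (if e ∣ l then 1 else 0) * (if q ∣ l then 1 else 0)]
  have h2 : ∀ q : ℕ, ∑ d ∈ sqf R, ∑ e ∈ sqf R, lam R d * lam R e *
      ((if d ∣ l then 1 else 0) * (if e ∣ l then 1 else 0) * (if q ∣ l then 1 else 0)) =
      (∑ d ∈ sqf R, lam R d * (if d ∣ l then 1 else 0)) ^ 2 * (if q ∣ l then 1 else 0) := by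
    intro q
    rw [sq, sum_mul_sum, sum_mul]
    refine sum_congr rfl fun d _ => ?_
    rw [sum_mul]
    refine sum_congr rfl fun e _ => ?_
    ring
  simp_rw [h2]
  rw [if_pos (one_dvd l), mul_one, ← mul_sum]
  obtain ⟨q, hq, hql⟩ := h
  have h3 : (1 : ℝ) ≤ ∑ q ∈ prs z, (if q ∣ l then 1 else 0) := by
    calc (1 : ℝ) = if q ∣ l then 1 else 0 := by rw [if_pos hql]
      _ ≤ _ := single_le_sum (f := fun q => if q ∣ l then (1 : ℝ) else 0)
        (fun i _ => by split_ifs <;> norm_num) hq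
  have h4 := sq_nonneg (∑ d ∈ sqf R, lam R d * (if d ∣ l then 1 else 0))
  nlinarith

/-- the sum over the indices is not positive at the exceptional numbers -/
lemma F_nonpos {R z n : ℕ} (hn : AllPrime n) (h2 : 2 * z ≤ n) (P : Finset ℕ) (hP : P ⊆ prs z) :
    ∑ i ∈ P ×ˢ TT R z, cc R i.2 * ind i.1 (DD i.2) n ≤ 0 := by
  rw [sum_product]
  refine sum_nonpos fun p hp => ?_
  have hp' := mem_prs.mp (hP hp)
  by_cases hpn : p ∣ n
  · refine le_of_eq (sum_eq_zero fun t _ => ?_)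
    have : ind p (DD t) n = 0 := by
      unfold ind
      rw [if_neg]
      rw [ind_iff hp'.1.pos]
      exact fun h => h.1 hpn
    rw [this, mul_zero]
  · obtain ⟨q, hq1, hq2, hq3⟩ := hn.exists_factor hp'.1 hpn (by omega)
    have h3 : ∀ t ∈ TT R z, cc R t * ind p (DD t) n = cc R t * (if DD t ∣ n / p then 1 else 0) := by
      intro t _
      congr 1
      unfold ind
      simp only [ind_iff hp'.1.pos, hpn, not_false_eq_true, true_and]
    simp only
    rw [sum_congr rfl h3]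
    exact weight_nonpos ⟨q, mem_prs.mpr ⟨hq1, by omega⟩, hq3⟩

end Pool.GDS
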